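import Pool.Agent.GKO.Tree

/-!
# The certificate: a vector of length 9 which is singular modulo 23
-/

set_option autoImplicit false

namespace Pool.Agent.GKO

/-- The highest weight `(0, 3)`. -/
def lam3 : Fin 2 → ℤ := ![0, 3]

/-- The vector. -/
def W : Tr :=
  (.nd 0 (.nd 0 (.nd 0 .z (.nd 0 (.nd 0 .z (.nd 0 (.nd 0 .z (.nd 0 .z (.nd 0 .z (.nd (-9) .z .z)))) .z)) (.nd 0 (.nd 0 (.nd 0 .z (.nd 0 .z (.nd 0 .z (.nd (-6) .z .z)))) (.nd 0 (.nd 0 .z (.nd 0 .z (.nd 9 .z .z))) .z)) .z))) (.nd 0 (.nd 0 (.nd 0 .z (.nd 0 (.nd 0 .z (.nd 0 .z (.nd 0 .z (.nd 21 .z .z)))) .z)) (.nd 0 (.nd 0 (.nd 0 .z (.nd 0 .z (.nd 0 .z (.nd 24 .z .z)))) (.nd 0 (.nd 0 .z (.nd 0 .z (.nd 15 .z .z))) .z)) (.nd 0 (.nd 0 (.nd 0 .z (.nd 0 .z (.nd 18 .z .z))) (.nd 0 (.nd 0 .z (.nd 6 .z .z)) .z)) .z)))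 (.nd 0 (.nd 0 .z (.nd 0 (.nd 0 (.nd 0 .z (.nd 0 .z (.nd (-30) .z .z))) .z) .z)) .z))) (.nd 0 (.nd 0 (.nd 0 .z (.nd 0 (.nd 0 (.nd 0 .z (.nd 0 .z (.nd 0 .z (.nd 24 .z .z)))) (.nd 0 (.nd 0 .z (.nd 0 .z (.nd 21 .z .z))) .z)) (.nd 0 (.nd 0 (.nd 0 .z (.nd 0 .z (.nd (-3) .z .z))) (.nd 0 (.nd 0 .z (.nd 15 .z .z)) .z)) .z))) (.nd 0 (.nd 0 (.nd 0 .z (.nd 0 (.nd 0 .z (.nd 0 .z (.nd (-24) .z .z))) .z)) (.nd 0 (.nd 0 (.nd 0 .z (.nd 0 .z (.nd (-15) .z .z))) (.nd 0 (.nd 0 .z (.nd 18 .z .z)) .z)) (.nd 0 (.nd 0 (.nd 0 .z (.nd 33 .z .z)) .z) .z))) .z)) (.nd 0 (.nd 0 (.nd 0 .z (.nd 0 .z (.nd 0 (.nd 0 (.nd 0 .z (.nd 18 .z .z)) .z) .z))) .z) .z)))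

/-- `e_0 W / 23`. -/
def W0 : Tr :=
  (.nd 0 (.nd 0 .z (.nd 0 (.nd 0 .z (.nd 0 (.nd 0 .z (.nd 0 .z (.nd 0 .z (.nd 44 .z .z)))) .z)) (.nd 0 (.nd 0 (.nd 0 .z (.nd 0 .z (.nd 0 .z (.nd 6 .z .z)))) (.nd 0 (.nd 0 .z (.nd 0 .z (.nd (-12) .z .z))) .z)) .z))) (.nd 0 (.nd 0 (.nd 0 .z (.nd 0 (.nd 0 .z (.nd 0 .z (.nd 0 .z (.nd 36 .z .z)))) .z)) (.nd 0 (.nd 0 (.nd 0 .z (.nd 0 .z (.nd 0 .z (.nd 12 .z .z)))) (.nd 0 (.nd 0 .z (.nd 0 .z (.nd (-24) .z .z))) .z)) (.nd 0 (.nd 0 .z (.nd 0 (.nd 0 .z (.nd 36 .z .z)) .z)) .z))) (.nd 0 (.nd 0 .z (.nd 0 (.nd 0 (.nd 0 .z (.nd 0 .z (.nd (-6) .z .z))) .z) .z)) .z)))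

/-- `e_1 W / 23`. -/
def W1 : Tr :=
  (.nd 0 (.nd 0 (.nd 0 (.nd 0 .z (.nd 0 (.nd 0 .z (.nd 0 .z (.nd 0 .z (.nd (-19) .z .z)))) .z)) (.nd 0 (.nd 0 (.nd 0 .z (.nd 0 .z (.nd 0 .z (.nd 14 .z .z)))) (.nd 0 (.nd 0 .z (.nd 0 .z (.nd 15 .z .z))) .z)) (.nd 0 (.nd 0 .z (.nd 0 (.nd 0 .z (.nd 9 .z .z)) .z)) .z))) (.nd 0 (.nd 0 (.nd 0 .z (.nd 0 (.nd 0 .z (.nd 0 .z (.nd (-6) .z .z))) .z)) (.nd 0 (.nd 0 (.nd 0 .z (.nd 0 .z (.nd (-12) .z .z))) (.nd 0 (.nd 0 .z (.nd 6 .z .z)) .z)) (.nd 0 (.nd 0 (.nd 0 .z (.nd 3 .z .z)) .z) .z))) .z)) (.nd 0 (.nd 0 (.nd 0 .z (.nd 0 (.nd 0 (.nd 0 .z (.nd 0 .z (.nd (-3) .z .z))) (.nd 0 (.nd 0 .z (.nd 18 .z .z)) .z)) (.nd 0 (.nd 0 (.nd 0 .z (.nd 12 .z .z)) .z) .z))) .z) .z))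

theorem chk0 : ((W.eact lam3 0).add (W0.sm (-23))).kills lam3 9 = true := by decide +kernel

theorem chk1 : ((W.eact lam3 1).add (W1.sm (-23))).kills lam3 9 = true := by decide +kernel

theorem chkB : Tr.Bt lam3 W W = 10108568448 := by decide +kernel

theorem chkN0 : ((Tr.eact lam3 0)^[10] W).allz = true := by decide +kernel

theorem chkN1 : ((Tr.eact lam3 1)^[10] W).allz = true := by decide +kernel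

theorem chkH0 : ((W.hact 0 (lam3 0)).add (W.sm (-2))).allz = true := by decide +kernel

theorem chkH1 : ((W.hact 1 (lam3 1)).add (W.sm (-1))).allz = true := by decide +kernel

theorem chkT : ((W.tact 0).add (W.sm (-9))).allz = true := by decide +kernel

theorem chkC : W.cst = 0 := by decide +kernel

end Pool.Agent.GKO
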