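import Mathlib

/-!
# The affine Kac-Moody algebra of sl_2, Weyl modules in positive characteristic,
the Virasoro algebra, and the coset (Goddard-Kent-Olive) action.
-/

set_option autoImplicit false

open scoped TensorProduct

namespace Pool.Agent.GKO

noncomputable section

/-! ## The affine Kac-Moody algebra of sl_2 over the complex numbers -/

/-- Names of the generators: `E n`, `F n`, `H n` stand for `e ⊗ t^n`, `f ⊗ t^n`, `h ⊗ t^n`,
`C` for the central element and `D` for the derivation `t d/dt`. -/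
inductive Gen : Type
  | E : ℤ → Gen
  | F : ℤ → Gen
  | H : ℤ → Gen
  | C : Gen
  | D : Gen

/-- A generator as an element of the free algebra. -/
abbrev g (x : Gen) : FreeAlgebra ℂ Gen := FreeAlgebra.ι ℂ x

/-- The defining relations of the enveloping algebra of the affine Kac-Moody algebra
`sl_2 ⊗ ℂ[t, t⁻¹] ⊕ ℂ C ⊕ ℂ D`: the bracket is
`[x ⊗ t^m, y ⊗ t^n] = [x, y] ⊗ t^(m+n) + m δ_{m+n,0} (x | y) C`, with `(e | f) = 1`,
`(h | h) = 2`, the element `C` is central and `[D, x ⊗ t^n] = n x ⊗ t^n`. -/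
inductive Rel : FreeAlgebra ℂ Gen → FreeAlgebra ℂ Gen → Prop
  | EE (m n : ℤ) : Rel (g (.E m) * g (.E n) - g (.E n) * g (.E m)) 0
  | FF (m n : ℤ) : Rel (g (.F m) * g (.F n) - g (.F n) * g (.F m)) 0
  | EF (m n : ℤ) : Rel (g (.E m) * g (.F n) - g (.F n) * g (.E m))
      (g (.H (m + n)) + (if m + n = 0 then (m : ℂ) else 0) • g .C)
  | HE (m n : ℤ) : Rel (g (.H m) * g (.E n) - g (.E n) * g (.H m)) ((2 : ℂ) • g (.E (m + n)))
  | HF (m n : ℤ) : Rel (g (.H m) * g (.F n) - g (.F n) * g (.H m)) ((-2 : ℂ) • g (.F (m + n)))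
  | HH (m n : ℤ) : Rel (g (.H m) * g (.H n) - g (.H n) * g (.H m))
      ((if m + n = 0 then 2 * (m : ℂ) else 0) • g .C)
  | CX (x : Gen) : Rel (g .C * g x) (g x * g .C)
  | DE (n : ℤ) : Rel (g .D * g (.E n) - g (.E n) * g .D) ((n : ℂ) • g (.E n))
  | DF (n : ℤ) : Rel (g .D * g (.F n) - g (.F n) * g .D) ((n : ℂ) • g (.F n))
  | DH (n : ℤ) : Rel (g .D * g (.H n) - g (.H n) * g .D) ((n : ℂ) • g (.H n))

/-- The enveloping algebra of the affine Kac-Moody algebra of `sl_2` over `ℂ`. -/
abbrev U : Type := RingQuot Rel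

/-- The class of a generator in `U`. -/
def gen (x : Gen) : U := RingQuot.mkAlgHom ℂ Rel (g x)

/-- The Chevalley generators `e_0 = f ⊗ t`, `e_1 = e`. -/
def chE : Fin 2 → U := ![gen (.F 1), gen (.E 0)]
/-- The Chevalley generators `f_0 = e ⊗ t⁻¹`, `f_1 = f`. -/
def chF : Fin 2 → U := ![gen (.E (-1)), gen (.F 0)]

/-- The divided power `x^r / r!`. -/
def dp {A : Type} [Ring A] [Algebra ℂ A] (x : A) (r : ℕ) : A := ((r.factorial : ℂ)⁻¹) • x ^ r

/-- The left ideal of `U` such that `U ⧸ vermaIdeal k j` is the Verma module of highest weight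
`(k - j) ω_0 + j ω_1` (with `D = 0` on the highest weight vector). -/
def vermaIdeal (k j : ℕ) : Submodule U U :=
  Submodule.span U
    ({x | ∃ n : ℤ, 0 ≤ n ∧ x = gen (.E n)} ∪ {x | ∃ n : ℤ, 1 ≤ n ∧ x = gen (.F n)} ∪
      {x | ∃ n : ℤ, 1 ≤ n ∧ x = gen (.H n)} ∪
      {gen (.H 0) - (j : U), gen .C - (k : U), gen .D})

/-- The sum of a left ideal `I` and of all proper left ideals containing it. -/
def maxAbove {A : Type} [Ring A] (I : Submodule A A) : Submodule A A :=
  I ⊔ sSup {N | I ≤ N ∧ N ≠ ⊤}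

/-- The simple (integrable) module over `ℂ` of highest weight `(k - j) ω_0 + j ω_1`: the quotient
of the Verma module by the sum of its proper submodules. Its highest weight vector is the
class of `1`. -/
abbrev VC (k j : ℕ) : Type := U ⧸ maxAbove (vermaIdeal k j)

/-- The class of `1` in a quotient of a ring by a left ideal. -/
def one' {A : Type} [Ring A] (I : Submodule A A) : A ⧸ I := I.mkQ 1

/-- The highest weight vector of `VC k j`. -/
abbrev hw (k j : ℕ) : VC k j := one' (maxAbove (vermaIdeal k j))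

/-! ### Relations in `U` -/

/-- `e ⊗ t^n`. -/
abbrev E (n : ℤ) : U := gen (.E n)
/-- `f ⊗ t^n`. -/
abbrev F (n : ℤ) : U := gen (.F n)
/-- `h ⊗ t^n`. -/
abbrev H (n : ℤ) : U := gen (.H n)
/-- The central element. -/
abbrev C : U := gen .C
/-- The derivation. -/
abbrev D : U := gen .D

theorem rel_eq {a b : FreeAlgebra ℂ Gen} (h : Rel a b) :
    RingQuot.mkAlgHom ℂ Rel a = RingQuot.mkAlgHom ℂ Rel b :=
  RingQuot.mkAlgHom_rel ℂ h

theorem rEE (m n : ℤ) : E m * E n - E n * E m = 0 := by
  have h := rel_eq (Rel.EE m n)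
  simpa [gen] using h

theorem rFF (m n : ℤ) : F m * F n - F n * F m = 0 := by
  have h := rel_eq (Rel.FF m n)
  simpa [gen] using h

theorem rEF (m n : ℤ) : E m * F n - F n * E m =
    H (m + n) + (if m + n = 0 then (m : ℂ) else 0) • C := by
  have h := rel_eq (Rel.EF m n)
  simpa only [map_sub, map_mul, map_add, map_smul, gen] using h

theorem rHE (m n : ℤ) : H m * E n - E n * H m = (2 : ℂ) • E (m + n) := by
  have h := rel_eq (Rel.HE m n)
  simpa only [map_sub, map_mul, map_add, map_smul, gen] using h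

theorem rHF (m n : ℤ) : H m * F n - F n * H m = (-2 : ℂ) • F (m + n) := by
  have h := rel_eq (Rel.HF m n)
  simpa only [map_sub, map_mul, map_add, map_smul, gen] using h

theorem rHH (m n : ℤ) : H m * H n - H n * H m =
    (if m + n = 0 then 2 * (m : ℂ) else 0) • C := by
  have h := rel_eq (Rel.HH m n)
  simpa only [map_sub, map_mul, map_add, map_smul, gen] using h

theorem rC (x : Gen) : C * gen x = gen x * C := by
  have h := rel_eq (Rel.CX x)
  simpa only [map_sub, map_mul, map_add, map_smul, gen] using h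

theorem rDE (n : ℤ) : D * E n - E n * D = (n : ℂ) • E n := by
  have h := rel_eq (Rel.DE n)
  simpa only [map_sub, map_mul, map_add, map_smul, gen] using h

theorem rDF (n : ℤ) : D * F n - F n * D = (n : ℂ) • F n := by
  have h := rel_eq (Rel.DF n)
  simpa only [map_sub, map_mul, map_add, map_smul, gen] using h

theorem rDH (n : ℤ) : D * H n - H n * D = (n : ℂ) • H n := by
  have h := rel_eq (Rel.DH n)
  simpa only [map_sub, map_mul, map_add, map_smul, gen] using h

section General

variable {A : Type} [Ring A] [Algebra ℂ A]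

/-- `(ad x)^2 / 2` in terms of divided powers. -/
theorem ad2 (x y : A) : dp x 2 * y - x * y * x + y * dp x 2 =
    (2 : ℂ)⁻¹ • (x * (x * y - y * x) - (x * y - y * x) * x) := by
  have h2 : ((Nat.factorial 2 : ℕ) : ℂ) = 2 := by norm_num [Nat.factorial]
  have h3 : x * y * x = (2 : ℂ)⁻¹ • (x * y * x + x * y * x) := by
    rw [← two_smul ℂ (x * y * x), smul_smul]; norm_num
  rw [dp, h2, h3, smul_mul_assoc, mul_smul_comm, ← smul_sub, ← smul_add]
  congr 1
  noncomm_ring

theorem ad2_one (x y h z c : A) (κ : ℂ) (h1 : y * x - x * y = h + κ • c)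
    (h2 : h * x - x * h = (-2 : ℂ) • z) (hc : c * x = x * c) :
    dp x 2 * y - x * y * x + y * dp x 2 = - z := by
  rw [ad2]
  have h3 : x * y - y * x = - (h + κ • c) := by rw [← h1]; abel
  have h4 : x * -(h + κ • c) - -(h + κ • c) * x = (h * x - x * h) + κ • (c * x - x * c) := by
    rw [smul_sub, ← smul_mul_assoc, ← mul_smul_comm]
    noncomm_ring
  rw [h3, h4, h2, hc, sub_self, smul_zero, add_zero, smul_smul]
  norm_num

theorem ad2_two (x y h z c : A) (κ : ℂ) (h1 : x * y - y * x = h + κ • c)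
    (h2 : h * x - x * h = (2 : ℂ) • z) (hc : c * x = x * c) :
    dp x 2 * y - x * y * x + y * dp x 2 = - z := by
  rw [ad2]
  have h4 : x * (h + κ • c) - (h + κ • c) * x = -(h * x - x * h) - κ • (c * x - x * c) := by
    rw [smul_sub, ← smul_mul_assoc, ← mul_smul_comm]
    noncomm_ring
  rw [h1, h4, h2, hc, sub_self, smul_zero, sub_zero, smul_neg, smul_smul]
  norm_num

theorem dp_one {A : Type} [Ring A] [Algebra ℂ A] (x : A) : dp x 1 = x := by
  simp [dp]

theorem dp_zero {A : Type} [Ring A] [Algebra ℂ A] (x : A) : dp x 0 = 1 := by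
  simp [dp]

theorem D_dp {A : Type} [Ring A] [Algebra ℂ A] (d x : A) (c : ℤ) (h : d * x - x * d = (c : ℂ) • x)
    (r : ℕ) : d * dp x r = dp x r * d + (r * c : ℤ) • dp x r := by
  have h1 : ∀ r : ℕ, d * x ^ r = x ^ r * d + ((r * c : ℤ) : ℂ) • x ^ r := by
    intro r
    induction r with
    | zero => simp
    | succ r ih =>
      have h2 : d * x = x * d + (c : ℂ) • x := by rw [← h]; abel
      rw [pow_succ, ← mul_assoc, ih, add_mul, mul_assoc, h2, mul_add, smul_mul_assoc,
        mul_smul_comm, mul_assoc, add_assoc, ← add_smul]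
      congr 2
      push_cast; ring
  rw [dp, mul_smul_comm, h1 r, smul_add, smul_mul_assoc, smul_comm]
  congr 1
  rw [← Int.cast_smul_eq_zsmul ℂ]

end General

theorem ad2_a (n : ℤ) : dp (F 1) 2 * E n - F 1 * E n * F 1 + E n * dp (F 1) 2 =
    - F (n + 2) := by
  refine ad2_one (F 1) (E n) _ _ C _ (rEF n 1) ?_ (rC _)
  rw [rHF (n + 1) 1, show n + 1 + 1 = n + 2 by ring]

theorem ad2_b (n : ℤ) : dp (F 0) 2 * E n - F 0 * E n * F 0 + E n * dp (F 0) 2 =
    - F n := by
  refine ad2_one (F 0) (E n) _ _ C _ (rEF n 0) ?_ (rC _)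
  rw [rHF (n + 0) 0, show n + 0 + 0 = n by ring]

theorem ad2_c (n : ℤ) : dp (E 0) 2 * F n - E 0 * F n * E 0 + F n * dp (E 0) 2 =
    - E n := by
  refine ad2_two (E 0) (F n) _ _ C _ (rEF 0 n) ?_ (rC _)
  rw [rHE (0 + n) 0, show 0 + n + 0 = n by ring]

theorem ad2_d (n : ℤ) : dp (E (-1)) 2 * F n - E (-1) * F n * E (-1) + F n * dp (E (-1)) 2 =
    - E (n - 2) := by
  refine ad2_two (E (-1)) (F n) _ _ C _ (rEF (-1) n) ?_ (rC _)
  rw [rHE (-1 + n) (-1), show -1 + n + -1 = n - 2 by ring]

/-! ## Lattices -/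

section Stable

variable {V : Type} [AddCommGroup V] [Module U V]

/-- The subgroup `N` is stable under `u`. -/
def Stb (N : Submodule ℤ V) (u : U) : Prop := ∀ x ∈ N, u • x ∈ N

/-- The subgroup `N` is stable under the divided powers of the Chevalley generators. -/
def DStb (N : Submodule ℤ V) : Prop :=
  ∀ (i : Fin 2) (r : ℕ), Stb N (dp (chE i) r) ∧ Stb N (dp (chF i) r)

/-- The `ℤ`-form generated by `v` under all divided powers of the Chevalley generators. -/
def ZForm (v : V) : Submodule ℤ V := sInf {N | v ∈ N ∧ DStb N}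

theorem Stb.mul {N : Submodule ℤ V} {u w : U} (hu : Stb N u) (hw : Stb N w) : Stb N (u * w) := by
  intro x hx
  rw [mul_smul]
  exact hu _ (hw _ hx)

theorem Stb.add {N : Submodule ℤ V} {u w : U} (hu : Stb N u) (hw : Stb N w) : Stb N (u + w) := by
  intro x hx
  rw [add_smul]
  exact N.add_mem (hu _ hx) (hw _ hx)

theorem Stb.neg {N : Submodule ℤ V} {u : U} (hu : Stb N u) : Stb N (-u) := by
  intro x hx
  rw [neg_smul]
  exact N.neg_mem (hu _ hx)

theorem Stb.sub {N : Submodule ℤ V} {u w : U} (hu : Stb N u) (hw : Stb N w) : Stb N (u - w) := by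
  rw [sub_eq_add_neg]
  exact hu.add hw.neg

theorem Stb.of_neg {N : Submodule ℤ V} {u : U} (hu : Stb N (-u)) : Stb N u := by
  have := hu.neg
  rwa [neg_neg] at this

theorem DStb.EF {N : Submodule ℤ V} (h : DStb N) (n : ℤ) : Stb N (E n) ∧ Stb N (F n) := by
  have he (i : Fin 2) : Stb N (chE i) := by simpa [dp_one] using (h i 1).1
  have hf (i : Fin 2) : Stb N (chF i) := by simpa [dp_one] using (h i 1).2
  have he0 : Stb N (F 1) := he 0
  have he1 : Stb N (E 0) := he 1
  have hf0 : Stb N (E (-1)) := hf 0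
  have hf1 : Stb N (F 0) := hf 1
  have ha (n : ℤ) (hn : Stb N (E n)) : Stb N (F (n + 2)) := by
    apply Stb.of_neg
    rw [← ad2_a n]
    exact (((h 0 2).1.mul hn).sub ((he0.mul hn).mul he0)).add (hn.mul (h 0 2).1)
  have hb (n : ℤ) (hn : Stb N (E n)) : Stb N (F n) := by
    apply Stb.of_neg
    rw [← ad2_b n]
    exact (((h 1 2).2.mul hn).sub ((hf1.mul hn).mul hf1)).add (hn.mul (h 1 2).2)
  have hc (n : ℤ) (hn : Stb N (F n)) : Stb N (E n) := by
    apply Stb.of_neg
    rw [← ad2_c n]
    exact (((h 1 2).1.mul hn).sub ((he1.mul hn).mul he1)).add (hn.mul (h 1 2).1)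
  have hd (n : ℤ) (hn : Stb N (F n)) : Stb N (E (n - 2)) := by
    apply Stb.of_neg
    rw [← ad2_d n]
    exact (((h 0 2).2.mul hn).sub ((hf0.mul hn).mul hf0)).add (hn.mul (h 0 2).2)
  have key (n : ℤ) : Stb N (E n) ∧ Stb N (E (n + 1)) := by
    induction n using Int.induction_on with
    | zero => exact ⟨he1, by simpa using hc 1 he0⟩
    | succ i ih =>
      refine ⟨ih.2, ?_⟩
      have := hc _ (ha _ ih.1)
      rwa [show (i : ℤ) + 2 = i + 1 + 1 by ring] at this
    | pred i ih =>
      have := hd _ (hb _ ih.2)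
      rw [show -(i : ℤ) + 1 - 2 = -i - 1 by ring] at this
      refine ⟨this, ?_⟩
      rw [show -(i : ℤ) - 1 + 1 = -i by ring]
      exact ih.1
  exact ⟨(key n).1, hb n (key n).1⟩

theorem DStb.E {N : Submodule ℤ V} (h : DStb N) (n : ℤ) : Stb N (gen (.E n)) := (h.EF n).1

theorem DStb.F {N : Submodule ℤ V} (h : DStb N) (n : ℤ) : Stb N (gen (.F n)) := (h.EF n).2

theorem DStb.H {N : Submodule ℤ V} (h : DStb N) (n : ℤ) : Stb N (gen (.H n)) := by
  by_cases hn : n = 0
  · subst hn
    have h1 := ((h.EF 0).1.mul (h.EF 0).2).sub ((h.EF 0).2.mul (h.EF 0).1)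
    rw [rEF 0 0] at h1
    simpa using h1
  · have h1 := ((h.EF n).1.mul (h.EF 0).2).sub ((h.EF 0).2.mul (h.EF n).1)
    rw [rEF n 0] at h1
    simpa [hn] using h1

/-- The `ℤ`-form is stable under the divided powers. -/
theorem ZForm_stable (v : V) : DStb (ZForm v) := by
  intro i r
  constructor
  · intro x hx
    rw [ZForm, Submodule.mem_sInf] at hx ⊢
    intro N hN
    exact (hN.2 i r).1 x (hx N hN)
  · intro x hx
    rw [ZForm, Submodule.mem_sInf] at hx ⊢
    intro N hN
    exact (hN.2 i r).2 x (hx N hN)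

theorem mem_ZForm (v : V) : v ∈ ZForm v := by
  rw [ZForm, Submodule.mem_sInf]
  intro N hN
  exact hN.1

theorem ZForm_le {v : V} {N : Submodule ℤ V} (h0 : v ∈ N) (h : DStb N) :
    ZForm v ≤ N := by
  rw [ZForm]
  exact sInf_le ⟨h0, h⟩

theorem ZForm_D {v : V} (hv : gen .D • v = 0) : Stb (ZForm v) (gen .D) := by
  let N : Submodule ℤ V :=
    { carrier := {x | x ∈ ZForm v ∧ D • x ∈ ZForm v}
      add_mem' := by
        rintro a b ⟨ha, ha'⟩ ⟨hb, hb'⟩
        refine ⟨(ZForm v).add_mem ha hb, ?_⟩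
        rw [smul_add]
        exact (ZForm v).add_mem ha' hb'
      zero_mem' := ⟨(ZForm v).zero_mem, by rw [smul_zero]; exact (ZForm v).zero_mem⟩
      smul_mem' := by
        rintro c x ⟨hx, hx'⟩
        refine ⟨(ZForm v).smul_mem c hx, ?_⟩
        rw [smul_comm]
        exact (ZForm v).smul_mem c hx' }
  have key (x : U) (c : ℤ) (hc : D * x - x * D = (c : ℂ) • x) (r : ℕ)
      (hs : Stb (ZForm v) (dp x r)) : Stb N (dp x r) := by
    rintro y ⟨hy, hy'⟩
    refine ⟨hs _ hy, ?_⟩
    rw [← mul_smul, D_dp D x c hc r, add_smul, mul_smul, smul_assoc]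
    exact (ZForm v).add_mem (hs _ hy') ((ZForm v).smul_mem _ (hs _ hy))
  have hN : DStb N := by
    intro i r
    have hV := ZForm_stable v i r
    fin_cases i
    · exact ⟨key _ 1 (rDF 1) r hV.1, key _ (-1) (rDE (-1)) r hV.2⟩
    · exact ⟨key _ 0 (rDE 0) r hV.1, key _ 0 (rDF 0) r hV.2⟩
  have h0 : v ∈ N := ⟨mem_ZForm v, by rw [hv]; exact (ZForm v).zero_mem⟩
  intro x hx
  exact (ZForm_le h0 hN hx).2

end Stable

theorem hw_mk (k j : ℕ) (u : U) : u • hw k j = (maxAbove (vermaIdeal k j)).mkQ u := by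
  rw [hw, one', ← map_smul, smul_eq_mul, mul_one]

theorem hw_ideal (k j : ℕ) (u : U) (hu : u ∈ vermaIdeal k j) : u • hw k j = 0 := by
  rw [hw_mk]
  exact (Submodule.Quotient.mk_eq_zero _).mpr (Submodule.mem_sup_left hu)

theorem hw_D (k j : ℕ) : gen .D • hw k j = 0 := by
  apply hw_ideal
  apply Submodule.subset_span
  right; right; right; rfl

theorem hw_C (k j : ℕ) : C • hw k j = (k : U) • hw k j := by
  have : (C - (k : U)) • hw k j = 0 := by
    apply hw_ideal
    apply Submodule.subset_span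
    right; right; left; rfl
  rwa [sub_smul, sub_eq_zero] at this

theorem hw_H0 (k j : ℕ) : H 0 • hw k j = (j : U) • hw k j := by
  have : (H 0 - (j : U)) • hw k j = 0 := by
    apply hw_ideal
    apply Submodule.subset_span
    right; left; rfl
  rwa [sub_smul, sub_eq_zero] at this

theorem hw_E (k j : ℕ) (n : ℤ) (hn : 0 ≤ n) : E n • hw k j = 0 := by
  apply hw_ideal
  apply Submodule.subset_span
  left; left; left; exact ⟨n, hn, rfl⟩

theorem hw_F (k j : ℕ) (n : ℤ) (hn : 1 ≤ n) : F n • hw k j = 0 := by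
  apply hw_ideal
  apply Submodule.subset_span
  left; left; right; exact ⟨n, hn, rfl⟩

theorem hw_H (k j : ℕ) (n : ℤ) (hn : 1 ≤ n) : H n • hw k j = 0 := by
  apply hw_ideal
  apply Submodule.subset_span
  left; right; exact ⟨n, hn, rfl⟩

/-! ## Modules over a field -/

/-- A vector space over `K` with a family of linear operators indexed by `ι`. -/
structure Rep (K : Type) [Field K] (ι : Type) where
  /-- The underlying space. -/
  V : Type
  [grp : AddCommGroup V]
  [mod : Module K V]
  /-- The operators. -/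
  act : ι → V →ₗ[K] V

attribute [instance] Rep.grp Rep.mod

/-- Names of the currents `e ⊗ t^n`, `f ⊗ t^n`, `h ⊗ t^n`. -/
inductive Cur : Type
  | E : ℤ → Cur
  | F : ℤ → Cur
  | H : ℤ → Cur

/-- Names of the operators on a Weyl module: the currents, the derivation `D` and the divided
powers `e_i^{(r)}`, `f_i^{(r)}`. -/
inductive Nm : Type
  | cur : Cur → Nm
  | D : Nm
  | dE : Fin 2 → ℕ → Nm
  | dF : Fin 2 → ℕ → Nm

/-- The element of `U` with a given name. -/
def elt : Nm → U
  | .cur (.E n) => gen (.E n)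
  | .cur (.F n) => gen (.F n)
  | .cur (.H n) => gen (.H n)
  | .D => gen .D
  | .dE i r => dp (chE i) r
  | .dF i r => dp (chF i) r

/-- The reduction to `K` of the action of `u` on a lattice `Z` preserved by `u`. -/
def redOp (K : Type) [Field K] {V : Type} [AddCommGroup V] [Module U V] (Z : Submodule ℤ V)
    (u : U) (hu : Stb Z u) : (K ⊗[ℤ] Z) →ₗ[K] (K ⊗[ℤ] Z) :=
  LinearMap.baseChange K ((Module.toModuleEnd ℤ V u).restrict (p := Z) (q := Z) hu)

/-- The reduction `K ⊗ Z` of a lattice `Z` stable under all operators. -/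
def reduction (K : Type) [Field K] {V : Type} [AddCommGroup V] [Module U V] (Z : Submodule ℤ V)
    (hZ : ∀ a, Stb Z (elt a)) : Rep K Nm where
  V := K ⊗[ℤ] Z
  act a := redOp K Z (elt a) (hZ a)

theorem DStb.elt {V : Type} [AddCommGroup V] [Module U V] {Z : Submodule ℤ V} (hZ : DStb Z)
    (hD : Stb Z (gen .D)) : ∀ a, Stb Z (elt a)
  | .cur (.E n) => hZ.E n
  | .cur (.F n) => hZ.F n
  | .cur (.H n) => hZ.H n
  | .D => hD
  | .dE i r => (hZ i r).1
  | .dF i r => (hZ i r).2

theorem ZForm_elt {V : Type} [AddCommGroup V] [Module U V] {v : V} (hv : gen .D • v = 0) :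
    ∀ a, Stb (ZForm v) (elt a) :=
  (ZForm_stable v).elt (ZForm_D hv)

/-- The Weyl module `V((k - j) ω_0 + j ω_1)` over `K`. -/
def weyl (K : Type) [Field K] (k j : ℕ) : Rep K Nm :=
  reduction K (ZForm (hw k j)) (ZForm_elt (hw_D k j))

/-! ## The Virasoro algebra over a field -/

/-- Names of the generators of the Virasoro algebra. -/
inductive VGen : Type
  | L : ℤ → VGen
  | C : VGen

/-- A generator as an element of the free algebra. -/
abbrev vg (K : Type) [Field K] (x : VGen) : FreeAlgebra K VGen := FreeAlgebra.ι K x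

/-- The defining relations of the enveloping algebra of the Virasoro algebra:
`[L m, L n] = (m - n) L (m + n) + (m^3 - m)/12 δ_{m+n,0} C`, and `C` is central. -/
inductive VRel (K : Type) [Field K] : FreeAlgebra K VGen → FreeAlgebra K VGen → Prop
  | LL (m n : ℤ) : VRel K (vg K (.L m) * vg K (.L n) - vg K (.L n) * vg K (.L m))
      (((m : K) - (n : K)) • vg K (.L (m + n)) +
        (if m + n = 0 then ((m : K) ^ 3 - (m : K)) / 12 else 0) • vg K .C)
  | CL (n : ℤ) : VRel K (vg K .C * vg K (.L n)) (vg K (.L n) * vg K .C)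

/-- The enveloping algebra of the Virasoro algebra over `K`. -/
abbrev Vir (K : Type) [Field K] : Type := RingQuot (VRel K)

/-- The class of a generator. -/
def vgen (K : Type) [Field K] (x : VGen) : Vir K := RingQuot.mkAlgHom K (VRel K) (vg K x)

/-- The left ideal such that `Vir K ⧸ virIdeal K c h` is the Verma module `M_{c,h}`. -/
def virIdeal (K : Type) [Field K] (c h : K) : Submodule (Vir K) (Vir K) :=
  Submodule.span (Vir K) ({x | ∃ n : ℤ, 1 ≤ n ∧ x = vgen K (.L n)} ∪
    {vgen K (.L 0) - algebraMap K (Vir K) h, vgen K .C - algebraMap K (Vir K) c})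

/-- The span of the products `L_{-n_1} ⋯ L_{-n_k}` with `k ≥ 1` and all `n_i ≥ 1`. -/
def virLower (K : Type) [Field K] : Submodule K (Vir K) :=
  Submodule.span K {x | ∃ l : List ℕ, l ≠ [] ∧ (∀ n ∈ l, 1 ≤ n) ∧
    x = (l.map (fun n : ℕ => vgen K (.L (-(n : ℤ))))).prod}

section Quot

variable {K : Type} [Field K] {A : Type} [Ring A] [Algebra K A]

/-- The sum of all left ideals which contain `I` and are contained in `I + W`. -/
def maxBetween (I : Submodule A A) (W : Submodule K A) : Submodule A A :=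
  sSup {N | I ≤ N ∧ N.restrictScalars K ≤ I.restrictScalars K ⊔ W}

/-- The quotient of `A` by a left ideal, with the operators given by a family of elements. -/
def quotRep (I : Submodule A A) {ι : Type} (a : ι → A) : Rep K ι where
  V := A ⧸ I
  act i := Module.toModuleEnd K (A ⧸ I) (a i)

end Quot

/-- The simple highest weight module `L_{c,h}`, with the operators `L n`: the quotient of the
Verma module `M_{c,h}` by its largest submodule contained in the part of positive degree (the
span of the vectors `L_{-n_1} ⋯ L_{-n_k} v` with `k ≥ 1`), that is by its maximal proper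
graded submodule. -/
def vir (K : Type) [Field K] (c h : K) : Rep K ℤ :=
  quotRep (maxBetween (virIdeal K c h) (virLower K)) (fun n => vgen K (.L n))

/-! ## The Sugawara construction -/

section Sugawara

variable {K : Type} [Field K] {T : Type} [AddCommGroup T] [Module K T]

/-- The normally ordered product of the modes `a r` and `b s`: the larger mode acts first. -/
def nord (a b : ℤ → T →ₗ[K] T) (r s : ℤ) (x : T) : T :=
  if r ≤ s then a r (b s x) else b s (a r x)

/-- The Sugawara operator `L_n` at level `κ` for the currents `e`, `f`, `h`: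
`(2 (κ + 2))⁻¹ ∑_m (: e_{-m} f_{n+m} : + : f_{-m} e_{n+m} : + (1/2) : h_{-m} h_{n+m} :)`
(on each vector only finitely many terms of the sum are nonzero). -/
def sugawara (κ : K) (a : Cur → T →ₗ[K] T) (n : ℤ) (x : T) : T :=
  (2 * (κ + 2))⁻¹ • ∑ᶠ m : ℤ,
    (nord (fun i => a (.E i)) (fun i => a (.F i)) (-m) (n + m) x +
      nord (fun i => a (.F i)) (fun i => a (.E i)) (-m) (n + m) x +
      (2 : K)⁻¹ • nord (fun i => a (.H i)) (fun i => a (.H i)) (-m) (n + m) x)

end Sugawara

/-! ## Tensor products, the coset action and the question -/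

section Coset

variable {K : Type} [Field K]

/-- The tensor product of two vector spaces with operators; the operators act on the factors. -/
def Rep.tensor {ι κ : Type} (X : Rep K ι) (Y : Rep K κ) : Rep K (ι ⊕ κ) where
  V := X.V ⊗[K] Y.V
  act := Sum.elim (fun a => (X.act a).rTensor Y.V) (fun b => (Y.act b).lTensor X.V)

/-- The currents of the first factor of a tensor product `T` of two modules of the affine
algebra. -/
def cur1 (T : Rep K (Nm ⊕ Nm)) (c : Cur) : T.V →ₗ[K] T.V := T.act (.inl (.cur c))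

/-- The currents of the second factor. -/
def cur2 (T : Rep K (Nm ⊕ Nm)) (c : Cur) : T.V →ₗ[K] T.V := T.act (.inr (.cur c))

/-- The diagonal action on the tensor product. -/
def diag (T : Rep K (Nm ⊕ Nm)) (c : Cur) : T.V →ₗ[K] T.V := cur1 T c + cur2 T c

/-- The coset operator `L_m = L_m^{(κ)} ⊗ 1 + 1 ⊗ L_m^{(κ')} - L_m^{(κ + κ')}` on the tensor
product `T` of modules of levels `κ` and `κ'`. -/
def coset (T : Rep K (Nm ⊕ Nm)) (κ κ' : K) (m : ℤ) (x : T.V) : T.V :=
  sugawara κ (cur1 T) m x + sugawara κ' (cur2 T) m x - sugawara (κ + κ') (diag T) m x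

/-- The tensor product `T` of modules of levels `κ` and `κ'` is isomorphic to the direct sum
of the modules `R j`, compatibly with the affine algebra (acting diagonally on `T`) and the
Virasoro algebra (acting by the coset operators on `T`): there are linear maps
`f j : R j → T` commuting with the currents and the operators `L m`
which together give a bijection from the direct sum to `T`. -/
def IsSum (T : Rep K (Nm ⊕ Nm)) (κ κ' : K) {ι : Type} [DecidableEq ι]
    (R : ι → Rep K (Nm ⊕ ℤ)) : Prop :=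
  ∃ f : ∀ j, (R j).V →ₗ[K] T.V,
    Function.Bijective (DirectSum.toModule K ι T.V f) ∧
    (∀ j c x, f j ((R j).act (.inl (.cur c)) x) = diag T c (f j x)) ∧
    (∀ j m x, f j ((R j).act (.inr m) x) = coset T κ κ' m (f j x))

/-- The space is nonzero and has no proper nonzero subspace stable under all the operators. -/
def Rep.Irred {ι : Type} (R : Rep K ι) : Prop :=
  Nontrivial R.V ∧ ∀ S : Submodule K R.V, (∀ a, ∀ x ∈ S, R.act a x ∈ S) → S = ⊥ ∨ S = ⊤

variable (K)

/-- The central charge `c_l = 1 - 6/((l+1)(l+2))`. -/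
def cc (l : ℕ) : K := 1 - 6 / (((l : K) + 1) * ((l : K) + 2))

/-- The weight `h_{m,n} = ((m (l+2) - n (l+1))^2 - 1) / (4 (l+1) (l+2))`. -/
def hmn (l m n : ℕ) : K :=
  (((m : K) * ((l : K) + 2) - (n : K) * ((l : K) + 1)) ^ 2 - 1) /
    (4 * ((l : K) + 1) * ((l : K) + 2))

/-- The weight `η(n,j)`. -/
def eta (l n j : ℕ) : K :=
  if j ≤ n then hmn K l (n + 1) (j + 1) else hmn K l (l - n) (l + 1 - j)

/-- The summand `V(λ_{l;j}) ⊗ L_{c_l, η(n,j)}`, with the operators of the affine algebra (the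
currents, the derivation and all divided powers of the Chevalley generators) on the first factor
and those of the Virasoro algebra on the second factor. -/
def summand (l n j : ℕ) : Rep K (Nm ⊕ ℤ) := (weyl K l j).tensor (vir K (cc K l) (eta K l n j))

end Coset

/-- The index set `J_{n,ε}`. -/
abbrev J (l n ε : ℕ) : Type := {j : ℕ // j ≤ l ∧ j % 2 = (n + ε) % 2}

/-- The statement Q1: for every `l ≥ 2`, every algebraically closed field `K` of characteristic
`p > 2 l^2 + l - 3` and all `0 ≤ n ≤ l - 1`, `ε ∈ {0, 1}`, the tensor product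
`V(λ_{l-1;n}) ⊗ V(ω_ε)` is isomorphic to the direct sum of the `V(λ_{l;j}) ⊗ L_{c_l, η(n,j)}`,
`j ∈ J_{n,ε}`, and all these summands are irreducible. -/
def Q1 : Prop :=
  ∀ (l : ℕ), 2 ≤ l → ∀ (K : Type) [Field K] [IsAlgClosed K] (p : ℕ) [CharP K p],
    2 * l ^ 2 + l - 3 < p → ∀ (n ε : ℕ), n ≤ l - 1 → ε ≤ 1 →
      IsSum ((weyl K (l - 1) n).tensor (weyl K 1 ε)) ((l - 1 : ℕ) : K) (1 : K)
        (fun j : J l n ε => summand K l n j) ∧
      ∀ j : J l n ε, (summand K l n j).Irred

end

end Pool.Agent.GKO
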