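import Pool.Agent.GKO.Main

/-!
# Reducibility of the Weyl module of highest weight `3 ω_1` in characteristic 23
-/

set_option autoImplicit false
set_option linter.unusedSectionVars false

open scoped TensorProduct

namespace Pool.Agent.GKO

noncomputable section

/-- The Cartan elements `h_0 = C - h`, `h_1 = h`. -/
def chH : Fin 2 → U := ![C - H 0, H 0]

/-- The length operator. -/
def chT : U := (2 : ℂ)⁻¹ • ((3 : ℂ) • (1 : U) - H 0) - (2 : ℂ) • D

section General

variable {A : Type} [Ring A] [Algebra ℂ A]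

theorem comm_T (t0 hh d x : A) (a b c : ℂ) (ht : t0 = (2 : ℂ)⁻¹ • ((3 : ℂ) • (1 : A) - hh) - (2 : ℂ) • d)
    (h1 : hh * x - x * hh = a • x) (h2 : d * x - x * d = b • x) (hc : c = - (2 : ℂ)⁻¹ * a - 2 * b) :
    t0 * x - x * t0 = c • x := by
  have h3 : t0 * x - x * t0 = -((2 : ℂ)⁻¹ • (hh * x - x * hh)) - (2 : ℂ) • (d * x - x * d) := by
    rw [ht, sub_mul, mul_sub, smul_mul_assoc, smul_mul_assoc, mul_smul_comm, mul_smul_comm,
      sub_mul, mul_sub, smul_mul_assoc, mul_smul_comm, one_mul, mul_one, smul_sub, smul_sub,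
      smul_sub, smul_sub]
    abel
  rw [h3, h1, h2, hc, sub_smul, smul_smul, smul_smul, neg_mul, neg_smul]

theorem comm_C (cc hh x : A) (a : ℂ) (h1 : hh * x - x * hh = a • x) (h2 : cc * x = x * cc) :
    (cc - hh) * x - x * (cc - hh) = (-a) • x := by
  have : (cc - hh) * x - x * (cc - hh) = (cc * x - x * cc) - (hh * x - x * hh) := by
    noncomm_ring
  rw [this, h1, h2, sub_self, zero_sub, neg_smul]

theorem ef0 (a b hh c : A) (κ : ℂ) (h1 : a * b - b * a = hh + κ • c) (hκ : κ = -1) :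
    b * a - a * b = c - hh := by
  have h2 : b * a - a * b = -(a * b - b * a) := by abel
  rw [h2, h1, hκ, neg_smul, one_smul]
  abel

end General

theorem kmU : KM chE chF chH chT where
  ef := by
    intro i
    fin_cases i
    · show F 1 * E (-1) - E (-1) * F 1 = C - H 0
      exact ef0 _ _ _ _ _ (rEF (-1) 1) (by norm_num)
    · show E 0 * F 0 - F 0 * E 0 = H 0
      rw [rEF 0 0]
      simp
  ef' := by
    intro i j hij
    fin_cases i <;> fin_cases j
    · exact absurd rfl hij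
    · exact sub_eq_zero.mp (rFF 1 0)
    · exact sub_eq_zero.mp (rEE 0 (-1))
    · exact absurd rfl hij
  he := by
    have h1 : H 0 * F 1 - F 1 * H 0 = (-2 : ℂ) • F 1 := by simpa using rHF 0 1
    have h2 : H 0 * E 0 - E 0 * H 0 = (2 : ℂ) • E 0 := by simpa using rHE 0 0
    intro i j
    fin_cases i <;> fin_cases j
    · show (C - H 0) * F 1 - F 1 * (C - H 0) = ((car 0 0 : ℤ) : ℂ) • F 1
      rw [comm_C C (H 0) (F 1) _ h1 (rC _)]
      simp [car]
    · show (C - H 0) * E 0 - E 0 * (C - H 0) = ((car 0 1 : ℤ) : ℂ) • E 0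
      rw [comm_C C (H 0) (E 0) _ h2 (rC _)]
      simp [car]
    · show H 0 * F 1 - F 1 * H 0 = ((car 1 0 : ℤ) : ℂ) • F 1
      rw [h1]
      simp [car]
    · show H 0 * E 0 - E 0 * H 0 = ((car 1 1 : ℤ) : ℂ) • E 0
      rw [h2]
      simp [car]
  hf := by
    have h1 : H 0 * E (-1) - E (-1) * H 0 = (2 : ℂ) • E (-1) := by simpa using rHE 0 (-1)
    have h2 : H 0 * F 0 - F 0 * H 0 = (-2 : ℂ) • F 0 := by simpa using rHF 0 0
    intro i j
    fin_cases i <;> fin_cases j
    · show (C - H 0) * E (-1) - E (-1) * (C - H 0) = ((-car 0 0 : ℤ) : ℂ) • E (-1)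
      rw [comm_C C (H 0) (E (-1)) _ h1 (rC _)]
      simp [car]
    · show (C - H 0) * F 0 - F 0 * (C - H 0) = ((-car 0 1 : ℤ) : ℂ) • F 0
      rw [comm_C C (H 0) (F 0) _ h2 (rC _)]
      simp [car]
    · show H 0 * E (-1) - E (-1) * H 0 = ((-car 1 0 : ℤ) : ℂ) • E (-1)
      rw [h1]
      simp [car]
    · show H 0 * F 0 - F 0 * H 0 = ((-car 1 1 : ℤ) : ℂ) • F 0
      rw [h2]
      simp [car]
  Te := by
    intro i
    fin_cases i
    · refine comm_T chT (H 0) D (F 1) (-2) 1 _ rfl (by simpa using rHF 0 1) (by simpa using rDF 1) ?_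
      norm_num
    · refine comm_T chT (H 0) D (E 0) 2 0 _ rfl (by simpa using rHE 0 0) (by simpa using rDE 0) ?_
      norm_num
  Tf := by
    intro i
    fin_cases i
    · refine comm_T chT (H 0) D (E (-1)) 2 (-1) _ rfl (by simpa using rHE 0 (-1))
        (by simpa using rDE (-1)) ?_
      norm_num
    · refine comm_T chT (H 0) D (F 0) (-2) 0 _ rfl (by simpa using rHF 0 0) (by simpa using rDF 0) ?_
      norm_num

theorem quot_simple {A : Type} [Ring A] (I : Submodule A A) (N : Submodule A (A ⧸ maxAbove I)) :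
    N = ⊥ ∨ N = ⊤ := by
  have hle : maxAbove I ≤ N.comap (maxAbove I).mkQ := by
    intro x hx
    show (maxAbove I).mkQ x ∈ N
    have : (maxAbove I).mkQ x = 0 := (Submodule.Quotient.mk_eq_zero _).mpr hx
    rw [this]
    exact N.zero_mem
  by_cases h : N.comap (maxAbove I).mkQ = ⊤
  · right
    rw [Submodule.eq_top_iff'] at h ⊢
    intro x
    obtain ⟨y, rfl⟩ := (maxAbove I).mkQ_surjective x
    exact h y
  · left
    have h0 : I ≤ N.comap (maxAbove I).mkQ := le_trans le_sup_left hle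
    have h1 : N.comap (maxAbove I).mkQ ≤ maxAbove I := by
      have h2 : N.comap (maxAbove I).mkQ ≤ sSup {N | I ≤ N ∧ N ≠ ⊤} := le_sSup ⟨h0, h⟩
      exact le_trans h2 le_sup_right
    rw [Submodule.eq_bot_iff]
    intro x hx
    obtain ⟨y, rfl⟩ := (maxAbove I).mkQ_surjective x
    exact (Submodule.Quotient.mk_eq_zero _).mpr (h1 hx)

theorem VC_gen (k j : ℕ) (x : VC k j) : ∃ u : U, x = u • hw k j := by
  obtain ⟨u, rfl⟩ := (maxAbove (vermaIdeal k j)).mkQ_surjective x
  exact ⟨u, (hw_mk k j u).symm⟩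

section Gen

variable {V : Type} [AddCommGroup V] [Module ℂ V] [Module U V] [IsScalarTower ℂ U V]

/-- A complex subspace stable under all generators is a submodule. -/
theorem stable_of_gen (N : Submodule ℂ V)
    (hN : ∀ g : Gen, ∀ x ∈ N, gen g • x ∈ N) (u : U) : ∀ x ∈ N, u • x ∈ N := by
  obtain ⟨a, rfl⟩ := RingQuot.mkAlgHom_surjective ℂ Rel u
  induction a using FreeAlgebra.induction with
  | grade0 r =>
    intro x hx
    rw [AlgHom.commutes, algebraMap_smul]
    exact N.smul_mem r hx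
  | grade1 g => exact hN g
  | mul a b ha hb =>
    intro x hx
    rw [map_mul, mul_smul]
    exact ha _ (hb _ hx)
  | add a b ha hb =>
    intro x hx
    rw [map_add, add_smul]
    exact N.add_mem (ha _ hx) (hb _ hx)

theorem hwM_gen (v : V) (hE : E 0 • v = 0) (hF : F 1 • v = 0) (hH : H 0 • v = (3 : U) • v)
    (hC : C • v = (3 : U) • v) (hDv : D • v = 0) (hne : v ≠ 0)
    (hs : ∀ N : Submodule U V, N = ⊥ ∨ N = ⊤) : HwM chE chF chH chT v lam3 where
  km := kmU
  ev := by
    intro i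
    fin_cases i
    · exact hF
    · exact hE
  hv := by
    intro i
    fin_cases i
    · show (C - H 0) • v = ((0 : ℤ) : ℂ) • v
      rw [sub_smul, hC, hH]
      simp
    · show H 0 • v = ((3 : ℤ) : ℂ) • v
      rw [hH, ← algebraMap_smul U]
      congr 1
  Tv := by
    have h3 : (3 : U) • v = (3 : ℂ) • v := by
      rw [← algebraMap_smul U (3 : ℂ)]
      congr 1
    rw [chT, sub_smul, smul_assoc, smul_assoc, hDv, smul_zero, sub_zero, sub_smul, hH,
      smul_assoc, one_smul, h3, sub_self, smul_zero]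
  ne := hne
  simple := by
    intro N he hf hh hT
    have hD1 : DStb (N.restrictScalars ℤ) := by
      intro i r
      constructor
      · intro x hx
        have h1 : ∀ r : ℕ, chE i ^ r • x ∈ N := by
          intro r
          induction r with
          | zero => simpa using hx
          | succ r ih => rw [pow_succ', mul_smul]; exact he i _ ih
        show dp (chE i) r • x ∈ N
        rw [dp_smul]
        exact N.smul_mem _ (h1 r)
      · intro x hx
        have h1 : ∀ r : ℕ, chF i ^ r • x ∈ N := by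
          intro r
          induction r with
          | zero => simpa using hx
          | succ r ih => rw [pow_succ', mul_smul]; exact hf i _ ih
        show dp (chF i) r • x ∈ N
        rw [dp_smul]
        exact N.smul_mem _ (h1 r)
    have hC : ∀ x ∈ N, C • x ∈ N := by
      intro x hx
      have h1 : C = chH 0 + chH 1 := by simp [chH]
      rw [h1, add_smul]
      exact N.add_mem (hh 0 x hx) (hh 1 x hx)
    have hD : ∀ x ∈ N, D • x ∈ N := by
      intro x hx
      have h1 : D • x = (2 : ℂ)⁻¹ • ((2 : ℂ)⁻¹ • ((3 : ℂ) • x - chH 1 • x) - chT • x) := by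
        have h2 : chT • x = (2 : ℂ)⁻¹ • ((3 : ℂ) • x - chH 1 • x) - (2 : ℂ) • (D • x) := by
          show chT • x = (2 : ℂ)⁻¹ • ((3 : ℂ) • x - H 0 • x) - (2 : ℂ) • (D • x)
          rw [chT, sub_smul, smul_assoc, smul_assoc, sub_smul, smul_assoc, one_smul]
        rw [h2, sub_sub_cancel, smul_smul]
        norm_num
      rw [h1]
      exact N.smul_mem _ (N.sub_mem (N.smul_mem _ (N.sub_mem (N.smul_mem _ hx) (hh 1 x hx)))
        (hT x hx))
    have hall : ∀ g : Gen, ∀ x ∈ N, gen g • x ∈ N := by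
      intro g x hx
      cases g with
      | E n => exact (hD1.EF n).1 x hx
      | F n => exact (hD1.EF n).2 x hx
      | H n => exact hD1.H n x hx
      | C => exact hC x hx
      | D => exact hD x hx
    let N' : Submodule U V :=
      { carrier := N
        add_mem' := N.add_mem
        zero_mem' := N.zero_mem
        smul_mem' := fun u x hx => stable_of_gen N hall u x hx }
    rcases hs N' with h1 | h1
    · left
      rw [Submodule.eq_bot_iff] at h1 ⊢
      exact h1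
    · right
      rw [Submodule.eq_top_iff'] at h1 ⊢
      exact h1

theorem D_fmon {y : V} {m : ℤ} (hy : D • y = (m : ℂ) • y) (L : List (Fin 2 × ℕ)) :
    ∃ m' : ℤ, D • fmon chF L y = (m' : ℂ) • fmon chF L y := by
  induction L with
  | nil => exact ⟨m, hy⟩
  | cons a L ih =>
    obtain ⟨j, s⟩ := a
    obtain ⟨m', hm'⟩ := ih
    fin_cases j
    · refine ⟨m' + s * (-1), ?_⟩
      have := weight_dp _ (rDE (-1)) hm' s
      rw [fmon]
      rw [show chF ((fun i => i) ⟨0, by decide⟩) = E (-1) from rfl, this]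
      push_cast
      rfl
    · refine ⟨m', ?_⟩
      have := weight_dp _ (rDF 0) hm' s
      rw [fmon]
      rw [show chF ((fun i => i) ⟨1, by decide⟩) = F 0 from rfl, this]
      push_cast
      rw [mul_zero, add_zero]

theorem D_Dsp {y : V} {m : ℤ} (hy : D • y = (m : ℂ) • y) : ∀ x ∈ Dsp chF y, D • x ∈ Dsp chF y := by
  intro x hx
  induction hx using Submodule.span_induction with
  | mem x hx =>
    obtain ⟨L, rfl⟩ := hx
    obtain ⟨m', hm'⟩ := D_fmon hy L
    show D • fmon chF L y ∈ _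
    rw [hm']
    exact int_smul_mem (fmon_mem y L) m'
  | zero => rw [smul_zero]; exact Submodule.zero_mem _
  | add x y _ _ hx hy => rw [smul_add]; exact Submodule.add_mem _ hx hy
  | smul c x _ hx => rw [smul_comm]; exact Submodule.smul_mem _ c hx

theorem D_w {v : V} (H : HwM chE chF chH chT v lam3) :
    D • evT chF v W = ((-4 : ℤ) : ℂ) • evT chF v W := by
  have h1 := H.w_T
  have h2 := H.w_h1
  have h3 : chT • evT chF v W = (2 : ℂ)⁻¹ • ((3 : ℂ) • evT chF v W - chH 1 • evT chF v W) -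
      (2 : ℂ) • (D • evT chF v W) := by
    show chT • evT chF v W = (2 : ℂ)⁻¹ • ((3 : ℂ) • evT chF v W - Pool.Agent.GKO.H 0 • evT chF v W) -
      (2 : ℂ) • (D • evT chF v W)
    rw [chT, sub_smul, smul_assoc, smul_assoc, sub_smul, smul_assoc, one_smul]
  rw [h1, h2] at h3
  have h4 : (2 : ℂ) • (D • evT chF v W) =
      (2 : ℂ)⁻¹ • ((3 : ℂ) • evT chF v W - (1 : ℂ) • evT chF v W) - (9 : ℂ) • evT chF v W := by
    rw [h3]; abel
  have h5 : D • evT chF v W = (2 : ℂ)⁻¹ • ((2 : ℂ) • (D • evT chF v W)) := by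
    rw [smul_smul]; norm_num
  rw [h5, h4, ← sub_smul, smul_smul, ← sub_smul, smul_smul]
  congr 1
  norm_num

theorem NN_D {v : V} (H : HwM chE chF chH chT v lam3) (hv : D • v = 0) :
    ∀ x ∈ NN chF v, D • x ∈ NN chF v := by
  intro x hx
  obtain ⟨a, ha, b, hb, rfl⟩ := Submodule.mem_sup.mp hx
  rw [smul_add]
  refine Submodule.add_mem_sup (D_Dsp (D_w H) a ha) (P23_stable _ ?_ b hb)
  apply D_Dsp (m := 0)
  rw [hv]; simp

end Gen

theorem hwM (hne : hw 3 3 ≠ 0) : HwM chE chF chH chT (hw 3 3) lam3 :=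
  hwM_gen (hw 3 3) (hw_E 3 3 0 le_rfl) (hw_F 3 3 1 le_rfl) (hw_H0 3 3) (hw_C 3 3) (hw_D 3 3) hne
    (quot_simple (vermaIdeal 3 3))

theorem ZForm_eq {V : Type} [AddCommGroup V] [Module ℂ V] [Module U V] [IsScalarTower ℂ U V]
    {v : V} (H : HwM chE chF chH chT v lam3) : ZForm v = Dsp chF v := by
  apply le_antisymm
  · apply ZForm_le (fmon_mem v [])
    intro i r
    exact ⟨H.Dsp_e i r, Dsp_f _ i r⟩
  · rw [Dsp, Submodule.span_le]
    rintro _ ⟨L, rfl⟩
    induction L with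
    | nil => exact mem_ZForm v
    | cons a L ih => exact (ZForm_stable v a.1 a.2).2 _ ih

/-- The lattice data in the module `VC 3 3`. -/
theorem lattice {V : Type} [AddCommGroup V] [Module ℂ V] [Module U V] [IsScalarTower ℂ U V]
    {v : V} (H : HwM chE chF chH chT v lam3) (hvD : D • v = 0) :
    ∃ (N : Submodule ℤ V) (φ θ : ZForm v →ₗ[ℤ] ℤ) (w : ZForm v),
      (∀ a, Stb N (elt a)) ∧ (w : V) ∈ N ∧ φ ⟨v, mem_ZForm v⟩ = 1 ∧
      (∀ x : ZForm v, (x : V) ∈ N → (23 : ℤ) ∣ φ x) ∧ ¬ (23 : ℤ) ∣ θ w := by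
  obtain ⟨p, hp, hpf⟩ := H.exists_pi
  obtain ⟨φ, hφ1, hφ2⟩ := H.exists_phi hp hpf
  obtain ⟨θ, hθ⟩ := H.exists_theta hp hpf
  have hN : DStb (NN chF v) := fun i r => ⟨H.NN_e hp hpf i r, NN_f i r⟩
  have key : ∀ (Z : Submodule ℤ V) (hZ : Z = Dsp chF v) (hv : v ∈ Z),
      ∃ (N : Submodule ℤ V) (φ θ : Z →ₗ[ℤ] ℤ) (w : Z),
      (∀ a, Stb N (elt a)) ∧ (w : V) ∈ N ∧ φ ⟨v, hv⟩ = 1 ∧
      (∀ x : Z, (x : V) ∈ N → (23 : ℤ) ∣ φ x) ∧ ¬ (23 : ℤ) ∣ θ w := by
    rintro _ rfl hv
    exact ⟨NN chF v, φ, θ, ⟨evT chF v W, evT_mem W⟩, hN.elt (NN_D H hvD), w_NN, hφ1, hφ2, hθ⟩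
  exact key _ (ZForm_eq H) (mem_ZForm v)

/-! ### Reduction -/

section Reduction

variable (K : Type) [Field K] {V : Type} [AddCommGroup V] [Module U V] (Z : Submodule ℤ V)

/-- The linear functional on the reduction induced by an integral functional. -/
def redF (φ : Z →ₗ[ℤ] ℤ) : K ⊗[ℤ] Z →ₗ[K] K :=
  (TensorProduct.AlgebraTensorModule.rid ℤ K K).toLinearMap ∘ₗ (LinearMap.baseChange K φ)

theorem redF_tmul (φ : Z →ₗ[ℤ] ℤ) (a : K) (x : Z) :
    redF K Z φ (a ⊗ₜ x) = (φ x : K) * a := by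
  simp [redF]

/-- The subspace of the reduction spanned by the image of `N`. -/
def redN (N : Submodule ℤ V) : Submodule K (K ⊗[ℤ] Z) :=
  Submodule.span K {y | ∃ x : Z, (x : V) ∈ N ∧ y = (1 : K) ⊗ₜ x}

theorem redN_stable (N : Submodule ℤ V) (u : U) (hu : Stb Z u)
    (hN : Stb N u) : ∀ y ∈ redN K Z N, redOp K Z u hu y ∈ redN K Z N := by
  intro y hy
  induction hy using Submodule.span_induction with
  | mem y hy =>
    obtain ⟨x, hx, rfl⟩ := hy
    apply Submodule.subset_span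
    refine ⟨⟨u • (x : V), hu _ x.2⟩, hN _ hx, ?_⟩
    rfl
  | zero => rw [map_zero]; exact Submodule.zero_mem _
  | add x y _ _ hx hy => rw [map_add]; exact Submodule.add_mem _ hx hy
  | smul c x _ hx => rw [map_smul]; exact Submodule.smul_mem _ c hx

theorem redN_phi (N : Submodule ℤ V) [CharP K 23] (φ : Z →ₗ[ℤ] ℤ)
    (hφ : ∀ x : Z, (x : V) ∈ N → (23 : ℤ) ∣ φ x) :
    ∀ y ∈ redN K Z N, redF K Z φ y = 0 := by
  intro y hy
  induction hy using Submodule.span_induction with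
  | mem y hy =>
    obtain ⟨x, hx, rfl⟩ := hy
    obtain ⟨n, hn⟩ := hφ x hx
    rw [redF_tmul, hn]
    have : ((23 : ℕ) : K) = 0 := CharP.cast_eq_zero K 23
    push_cast at this ⊢
    rw [this]
    ring
  | zero => rw [map_zero]
  | add x y _ _ hx hy => rw [map_add, hx, hy, add_zero]
  | smul c x _ hx => rw [map_smul, hx, smul_zero]

/-- A stable proper nonzero subspace of `X` gives one of `X ⊗ Y`. -/
theorem tensor_red {ι κ : Type} (X : Rep K ι) (Y : Rep K κ) (hY : ∃ z : Y.V, z ≠ 0)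
    (N : Submodule K X.V)
    (hN : ∀ a, ∀ x ∈ N, X.act a x ∈ N) (φ θ : X.V →ₗ[K] K) (hφ : ∀ x ∈ N, φ x = 0)
    (v : X.V) (hv : φ v ≠ 0) (w : X.V) (hw : w ∈ N) (hθ : θ w ≠ 0) :
    ∃ S : Submodule K (X.tensor Y).V, (∀ a, ∀ x ∈ S, (X.tensor Y).act a x ∈ S) ∧
      S ≠ ⊥ ∧ S ≠ ⊤ := by
  obtain ⟨z, hz⟩ := hY
  let G (f : X.V →ₗ[K] K) : X.V ⊗[K] Y.V →ₗ[K] Y.V :=
    (TensorProduct.lid K Y.V).toLinearMap ∘ₗ (LinearMap.rTensor Y.V f)
  have hG (f : X.V →ₗ[K] K) (x : X.V) (y : Y.V) : G f (x ⊗ₜ y) = f x • y := by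
    simp [G]
  let S : Submodule K (X.V ⊗[K] Y.V) := Submodule.span K {t | ∃ x ∈ N, ∃ y : Y.V, t = x ⊗ₜ y}
  refine ⟨S, ?_, ?_, ?_⟩
  · intro a t ht
    show (X.tensor Y).act a t ∈ S
    induction ht using Submodule.span_induction with
    | mem t ht =>
      obtain ⟨x, hx, y, rfl⟩ := ht
      apply Submodule.subset_span
      cases a with
      | inl a => exact ⟨X.act a x, hN a x hx, y, rfl⟩
      | inr b => exact ⟨x, hx, Y.act b y, rfl⟩
    | zero => rw [map_zero]; exact Submodule.zero_mem _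
    | add x y _ _ hx hy => rw [map_add]; exact Submodule.add_mem _ hx hy
    | smul c x _ hx => rw [map_smul]; exact Submodule.smul_mem _ c hx
  · intro h
    have h1 : w ⊗ₜ[K] z ∈ S := Submodule.subset_span ⟨w, hw, z, rfl⟩
    have h1' : w ⊗ₜ[K] z = (0 : X.V ⊗[K] Y.V) := by
      have h0 : S = ⊥ := h
      rw [h0] at h1
      exact (Submodule.mem_bot K).mp h1
    have h2 : G θ (w ⊗ₜ z) = 0 := by rw [h1', map_zero]
    rw [hG] at h2
    rcases smul_eq_zero.mp h2 with h3 | h3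
    · exact hθ h3
    · exact hz h3
  · intro h
    have h1 : v ⊗ₜ[K] z ∈ S := by
      have h0 : S = ⊤ := h
      rw [h0]; trivial
    have h2 : ∀ t ∈ S, G φ t = 0 := by
      intro t ht
      induction ht using Submodule.span_induction with
      | mem t ht =>
        obtain ⟨x, hx, y, rfl⟩ := ht
        rw [hG, hφ x hx, zero_smul]
      | zero => rw [map_zero]
      | add x y _ _ hx hy => rw [map_add, hx, hy, add_zero]
      | smul c x _ hx => rw [map_smul, hx, smul_zero]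
    have h3 := h2 _ h1
    rw [hG] at h3
    rcases smul_eq_zero.mp h3 with h4 | h4
    · exact hv h4
    · exact hz h4

theorem tensor_red' {ι κ : Type} {W : Type} [AddCommGroup W] [Module K W] (α : ι → W →ₗ[K] W)
    (Y : Rep K κ) (hY : ∃ z : Y.V, z ≠ 0) (N : Submodule K W)
    (hN : ∀ a, ∀ x ∈ N, α a x ∈ N) (φ θ : W →ₗ[K] K) (hφ : ∀ x ∈ N, φ x = 0)
    (v : W) (hv : φ v ≠ 0) (w : W) (hw : w ∈ N) (hθ : θ w ≠ 0) :
    ∃ S : Submodule K (Rep.tensor (Rep.mk W α) Y).V,
      (∀ a, ∀ x ∈ S, (Rep.tensor (Rep.mk W α) Y).act a x ∈ S) ∧ S ≠ ⊥ ∧ S ≠ ⊤ :=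
  tensor_red K (Rep.mk W α) Y hY N hN φ θ hφ v hv w hw hθ

theorem tensor_zero {ι κ : Type} (X : Rep K ι) (Y : Rep K κ)
    (h : (∀ x : X.V, x = 0) ∨ (∀ y : Y.V, y = 0)) : ¬ Nontrivial (X.tensor Y).V := by
  rintro ⟨a, b, hab⟩
  apply hab
  have h3 : ∀ a : X.V ⊗[K] Y.V, a = 0 := by
    intro a
    induction a using TensorProduct.induction_on with
    | zero => rfl
    | tmul x y =>
      rcases h with h | h
      · rw [h x, TensorProduct.zero_tmul]
      · rw [h y, TensorProduct.tmul_zero]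
    | add x y hx hy => rw [hx, hy, add_zero]
  exact (h3 a).trans (h3 b).symm

end Reduction

/-- The Weyl module of highest weight `3 ω_1` in characteristic 23, tensored with any nonzero
module, has a proper nonzero stable subspace. -/
theorem reducible (K : Type) [Field K] [CharP K 23] {κ : Type} (Y : Rep K κ)
    (hY : ∃ z : Y.V, z ≠ 0) (hne : hw 3 3 ≠ 0) :
    ∃ S : Submodule K ((weyl K 3 3).tensor Y).V,
      (∀ a, ∀ x ∈ S, ((weyl K 3 3).tensor Y).act a x ∈ S) ∧ S ≠ ⊥ ∧ S ≠ ⊤ := by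
  obtain ⟨N, φ, θ, w, hN, hw, hv, hφ, hθ⟩ := lattice (hwM hne) (hw_D 3 3)
  refine tensor_red' K
    (fun a => redOp K (ZForm (Pool.Agent.GKO.hw 3 3)) (elt a) (ZForm_elt (hw_D 3 3) a)) Y hY
    (redN K _ N) ?_ (redF K _ φ) (redF K _ θ) (redN_phi K _ N φ hφ)
    ((1 : K) ⊗ₜ[ℤ] ⟨Pool.Agent.GKO.hw 3 3, mem_ZForm _⟩) ?_ ((1 : K) ⊗ₜ[ℤ] w)
    (Submodule.subset_span ⟨w, hw, rfl⟩) ?_
  · intro a
    exact redN_stable K _ N (elt a) _ (hN a)
  · rw [redF_tmul, hv]; simp
  · rw [redF_tmul, mul_one]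
    intro h3
    exact hθ ((CharP.intCast_eq_zero_iff K 23 (θ w)).mp h3)

theorem weyl_zero (K : Type) [Field K] (k j : ℕ) (h0 : hw k j = 0) :
    ∀ a : (weyl K k j).V, a = 0 := by
  have h1 : Subsingleton (VC k j) := by
    constructor
    intro a b
    obtain ⟨u, rfl⟩ := VC_gen k j a
    obtain ⟨u', rfl⟩ := VC_gen k j b
    rw [h0, smul_zero, smul_zero]
  have h2 : Subsingleton (ZForm (hw k j)) := by
    constructor
    intro a b
    exact Subtype.ext (Subsingleton.elim _ _)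
  show ∀ a : K ⊗[ℤ] (ZForm (hw k j)), a = 0
  intro a
  induction a using TensorProduct.induction_on with
  | zero => rfl
  | tmul x y => rw [Subsingleton.elim y 0, TensorProduct.tmul_zero]
  | add x y hx hy => rw [hx, hy, add_zero]

/-- The summand `V(λ_{3;3}) ⊗ L_{c_3, η(n,3)}` is reducible in characteristic 23. -/
theorem not_irreducible (K : Type) [Field K] [CharP K 23] (n : ℕ) :
    ¬ (summand K 3 n 3).Irred := by
  rintro ⟨hnt, hirr⟩
  by_cases hne : hw 3 3 = 0
  · exact tensor_zero K _ _ (Or.inl (weyl_zero K 3 3 hne)) hnt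
  · have hl : ∃ l : (vir K (cc K 3) (eta K 3 n 3)).V, l ≠ 0 := by
      by_contra hcon
      push Not at hcon
      exact tensor_zero K _ _ (Or.inr hcon) hnt
    obtain ⟨S, h1, h8, h9⟩ := reducible K (vir K (cc K 3) (eta K 3 n 3)) hl hne
    rcases hirr S h1 with h | h
    · exact h8 h
    · exact h9 h

theorem not_Q1 : ¬ Q1 := by
  intro h
  have hp : Fact (Nat.Prime 23) := ⟨by norm_num⟩
  have hc : CharP (AlgebraicClosure (ZMod 23)) 23 :=
    charP_of_injective_algebraMap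
      (algebraMap (ZMod 23) (AlgebraicClosure (ZMod 23))).injective 23
  have h1 := h 3 (by norm_num) (AlgebraicClosure (ZMod 23)) 23 (by norm_num) 0 1 (by norm_num)
    (by norm_num)
  exact not_irreducible _ 0 (h1.2 ⟨3, by norm_num⟩)

end

end Pool.Agent.GKO
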