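import Pool.Agent.GKO.Sl2

/-!
# Highest weight modules: an abstract setting
-/

set_option autoImplicit false
set_option linter.unusedSectionVars false

namespace Pool.Agent.GKO

noncomputable section

/-- The affine Cartan matrix. -/
def car (i j : Fin 2) : ℤ := if i = j then 2 else -2

/-- The relations between the Chevalley generators. -/
structure KM {A : Type} [Ring A] [Algebra ℂ A] (e f h : Fin 2 → A) (T : A) : Prop where
  ef : ∀ i, e i * f i - f i * e i = h i
  ef' : ∀ i j, i ≠ j → e i * f j = f j * e i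
  he : ∀ i j, h i * e j - e j * h i = (car i j : ℂ) • e j
  hf : ∀ i j, h i * f j - f j * h i = ((-car i j : ℤ) : ℂ) • f j
  Te : ∀ i, T * e i - e i * T = (-1 : ℂ) • e i
  Tf : ∀ i, T * f i - f i * T = (1 : ℂ) • f i

/-- A simple highest weight module. -/
structure HwM {A : Type} [Ring A] [Algebra ℂ A] (e f h : Fin 2 → A) (T : A)
    {V : Type} [AddCommGroup V] [Module ℂ V] [Module A V] (v : V) (lam : Fin 2 → ℤ) : Prop where
  km : KM e f h T
  ev : ∀ i, e i • v = 0
  hv : ∀ i, h i • v = (lam i : ℂ) • v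
  Tv : T • v = 0
  ne : v ≠ 0
  simple : ∀ N : Submodule ℂ V, (∀ i, ∀ x ∈ N, e i • x ∈ N) → (∀ i, ∀ x ∈ N, f i • x ∈ N) →
    (∀ i, ∀ x ∈ N, h i • x ∈ N) → (∀ x ∈ N, T • x ∈ N) → N = ⊥ ∨ N = ⊤

variable {A V : Type} [Ring A] [Algebra ℂ A] [AddCommGroup V] [Module ℂ V] [Module A V]
  [IsScalarTower ℂ A V] {e f h : Fin 2 → A} {T : A}

/-- The action of an element as a linear map. -/
def act (a : A) : V →ₗ[ℂ] V := Module.toModuleEnd ℂ V a

@[simp] theorem act_apply (a : A) (x : V) : act a x = a • x := rfl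

/-! ### Divided monomials -/

/-- Divided monomials in the `f i`. -/
def fmon (f : Fin 2 → A) : List (Fin 2 × ℕ) → V → V
  | [], y => y
  | (i, s) :: L, y => dp (f i) s • fmon f L y

/-- The subgroup spanned by the divided monomials applied to `y`. -/
def Dsp (f : Fin 2 → A) (y : V) : Submodule ℤ V := Submodule.span ℤ (Set.range fun L => fmon f L y)

theorem fmon_mem (y : V) (L : List (Fin 2 × ℕ)) : fmon f L y ∈ Dsp f y :=
  Submodule.subset_span ⟨L, rfl⟩

theorem Dsp_f (y : V) (i : Fin 2) (s : ℕ) : ∀ x ∈ Dsp f y, dp (f i) s • x ∈ Dsp f y := by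
  intro x hx
  induction hx using Submodule.span_induction with
  | mem x hx =>
    obtain ⟨L, rfl⟩ := hx
    exact fmon_mem y ((i, s) :: L)
  | zero => rw [smul_zero]; exact Submodule.zero_mem _
  | add x y _ _ hx hy => rw [smul_add]; exact Submodule.add_mem _ hx hy
  | smul c x _ hx => rw [smul_comm]; exact Submodule.smul_mem _ c hx

theorem KM.fmon_weight (H : KM e f h T) {y : V} {i : Fin 2} {m : ℤ} (hy : h i • y = (m : ℂ) • y)
    (L : List (Fin 2 × ℕ)) : ∃ m' : ℤ, h i • fmon f L y = (m' : ℂ) • fmon f L y := by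
  induction L with
  | nil => exact ⟨m, hy⟩
  | cons a L ih =>
    obtain ⟨j, s⟩ := a
    obtain ⟨m', hm'⟩ := ih
    refine ⟨m' + s * (-car i j), ?_⟩
    have := weight_dp _ (H.hf i j) hm' s
    rw [fmon, this]
    push_cast
    rfl

theorem int_smul_mem {N : Submodule ℤ V} {x : V} (hx : x ∈ N) (c : ℤ) : (c : ℂ) • x ∈ N := by
  rw [Int.cast_smul_eq_zsmul]
  exact N.smul_mem c hx

theorem KM.e_fmon (H : KM e f h T) {y : V} {m : Fin 2 → ℤ} (hy : ∀ i, h i • y = (m i : ℂ) • y)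
    (P : Submodule ℤ V)
    (hPf : ∀ i s, ∀ x ∈ P, dp (f i) s • x ∈ P) (hey : ∀ i r, 1 ≤ r → dp (e i) r • y ∈ P)
    (L : List (Fin 2 × ℕ)) : ∀ i r, dp (e i) r • fmon f L y ∈ Dsp f y ⊔ P := by
  have hQ (i : Fin 2) (s : ℕ) : ∀ x ∈ Dsp f y ⊔ P, dp (f i) s • x ∈ Dsp f y ⊔ P := by
    intro x hx
    obtain ⟨a, ha, b, hb, rfl⟩ := Submodule.mem_sup.mp hx
    rw [smul_add]
    exact Submodule.add_mem_sup (Dsp_f y i s a ha) (hPf i s b hb)
  induction L with
  | nil =>
    intro i r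
    rcases Nat.eq_zero_or_pos r with rfl | hr
    · rw [dp_zero, one_smul]
      exact Submodule.mem_sup_left (fmon_mem y [])
    · exact Submodule.mem_sup_right (hey i r hr)
  | cons a L ih =>
    obtain ⟨j, s⟩ := a
    intro i r
    rw [fmon]
    by_cases hij : i = j
    · subst hij
      obtain ⟨m', hm'⟩ := H.fmon_weight (hy i) L
      have h1 : h i * e i - e i * h i = (2 : ℂ) • e i := by rw [H.he]; simp [car]
      have h2 : h i * f i - f i * h i = (-2 : ℂ) • f i := by rw [H.hf]; simp [car]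
      have := dp_ef (H.ef i) h1 h2 hm' r s
      rw [dz_nat] at this
      rw [this]
      refine Submodule.sum_mem _ ?_
      intro t ht
      apply int_smul_mem
      have ht' : t ≤ r := by simpa [Nat.lt_succ_iff] using ht
      have e1 : (r : ℤ) - t = ((r - t : ℕ) : ℤ) := by push_cast [ht']; ring
      rw [e1, dz_nat]
      by_cases hs : t ≤ s
      · have e2 : (s : ℤ) - t = ((s - t : ℕ) : ℤ) := by push_cast [hs]; ring
        rw [e2, dz_nat]
        exact hQ _ _ _ (ih _ _)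
      · rw [dz_neg _ _ (by omega), zero_smul]
        exact Submodule.zero_mem _
    · have hc : dp (e i) r * dp (f j) s = dp (f j) s * dp (e i) r := by
        have h1 : Commute (e i) (f j) := H.ef' i j hij
        have h2 := h1.pow_pow r s
        rw [dp, dp, smul_mul_smul_comm, smul_mul_smul_comm, h2.eq, mul_comm]
      rw [← mul_smul, hc, mul_smul]
      exact hQ _ _ _ (ih _ _)

theorem KM.e_Dsp (H : KM e f h T) {y : V} {m : Fin 2 → ℤ} (hy : ∀ i, h i • y = (m i : ℂ) • y)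
    (P : Submodule ℤ V) (hPe : ∀ i s, ∀ x ∈ P, dp (e i) s • x ∈ P)
    (hPf : ∀ i s, ∀ x ∈ P, dp (f i) s • x ∈ P) (hey : ∀ i r, 1 ≤ r → dp (e i) r • y ∈ P)
    (i : Fin 2) (r : ℕ) : ∀ x ∈ Dsp f y ⊔ P, dp (e i) r • x ∈ Dsp f y ⊔ P := by
  intro x hx
  obtain ⟨a, ha, b, hb, rfl⟩ := Submodule.mem_sup.mp hx
  rw [smul_add]
  refine Submodule.add_mem _ ?_ (Submodule.mem_sup_right (hPe i r b hb))
  clear hx
  induction ha using Submodule.span_induction with
  | mem x hx =>
    obtain ⟨L, rfl⟩ := hx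
    exact H.e_fmon hy P hPf hey L i r
  | zero => rw [smul_zero]; exact Submodule.zero_mem _
  | add x y _ _ hx hy => rw [smul_add]; exact Submodule.add_mem _ hx hy
  | smul c x _ hx => rw [smul_comm]; exact Submodule.smul_mem _ c hx

theorem KM.f_Dsp {y : V} (P : Submodule ℤ V)
    (hPf : ∀ i s, ∀ x ∈ P, dp (f i) s • x ∈ P)
    (i : Fin 2) (r : ℕ) : ∀ x ∈ Dsp f y ⊔ P, dp (f i) r • x ∈ Dsp f y ⊔ P := by
  intro x hx
  obtain ⟨a, ha, b, hb, rfl⟩ := Submodule.mem_sup.mp hx
  rw [smul_add]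
  exact Submodule.add_mem_sup (Dsp_f y i r a ha) (hPf i r b hb)

/-! ### The grading by word length -/

/-- The span of the words of length `n`. -/
def Wn (f : Fin 2 → A) (v : V) : ℕ → Submodule ℂ V
  | 0 => Submodule.span ℂ {v}
  | n + 1 => (Wn f v n).map (act (f 0)) ⊔ (Wn f v n).map (act (f 1))

theorem Wn_f (v : V) (i : Fin 2) (n : ℕ) {x : V} (hx : x ∈ Wn f v n) :
    f i • x ∈ Wn f v (n + 1) := by
  fin_cases i
  · exact Submodule.mem_sup_left ⟨x, hx, rfl⟩
  · exact Submodule.mem_sup_right ⟨x, hx, rfl⟩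

theorem Wn_succ {v : V} {n : ℕ} {x : V} (hx : x ∈ Wn f v (n + 1)) :
    ∃ a ∈ Wn f v n, ∃ b ∈ Wn f v n, x = f 0 • a + f 1 • b := by
  obtain ⟨a', ha', b', hb', rfl⟩ := Submodule.mem_sup.mp hx
  obtain ⟨a, ha, rfl⟩ := ha'
  obtain ⟨b, hb, rfl⟩ := hb'
  exact ⟨a, ha, b, hb, rfl⟩

theorem KM.h_f (H : KM e f h T) (i j : Fin 2) (x : V) :
    h i • (f j • x) = f j • (h i • x) - (car i j : ℂ) • (f j • x) := by
  have h1 : h i * f j = f j * h i + ((-car i j : ℤ) : ℂ) • f j := by rw [← H.hf]; abel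
  rw [← mul_smul, h1, add_smul, mul_smul, smul_assoc]
  push_cast
  rw [neg_smul, sub_eq_add_neg]

theorem KM.h_e (H : KM e f h T) (i j : Fin 2) (x : V) :
    h i • (e j • x) = e j • (h i • x) + (car i j : ℂ) • (e j • x) := by
  have h1 : h i * e j = e j * h i + (car i j : ℂ) • e j := by rw [← H.he]; abel
  rw [← mul_smul, h1, add_smul, mul_smul, smul_assoc]

theorem KM.T_f (H : KM e f h T) (j : Fin 2) (x : V) :
    T • (f j • x) = f j • (T • x) + f j • x := by
  have h1 : T * f j = f j * T + (1 : ℂ) • f j := by rw [← H.Tf]; abel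
  rw [← mul_smul, h1, add_smul, mul_smul, one_smul]

theorem KM.T_e (H : KM e f h T) (j : Fin 2) (x : V) :
    T • (e j • x) = e j • (T • x) - e j • x := by
  have h1 : T * e j = e j * T + (-1 : ℂ) • e j := by rw [← H.Te]; abel
  rw [← mul_smul, h1, add_smul, mul_smul, neg_smul, one_smul, neg_smul, sub_eq_add_neg]

theorem KM.e_f (H : KM e f h T) (i j : Fin 2) (x : V) :
    e i • (f j • x) = f j • (e i • x) + (if i = j then h i • x else 0) := by
  by_cases hij : i = j
  · subst hij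
    have h1 : e i * f i = f i * e i + h i := by rw [← H.ef]; abel
    rw [← mul_smul, h1, add_smul, mul_smul, if_pos rfl]
  · rw [← mul_smul, H.ef' i j hij, mul_smul, if_neg hij, add_zero]

theorem HwM.Wn_h {v : V} {lam : Fin 2 → ℤ} (H : HwM e f h T v lam) (i : Fin 2) (n : ℕ) :
    ∀ x ∈ Wn f v n, h i • x ∈ Wn f v n := by
  induction n with
  | zero =>
    intro x hx
    obtain ⟨c, rfl⟩ := Submodule.mem_span_singleton.mp hx
    rw [smul_comm', H.hv]
    exact Submodule.smul_mem _ _ (Submodule.smul_mem _ _ (Submodule.mem_span_singleton_self v))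
  | succ n ih =>
    intro x hx
    obtain ⟨a, ha, b, hb, rfl⟩ := Wn_succ hx
    rw [smul_add, H.km.h_f, H.km.h_f]
    exact Submodule.add_mem _
      (Submodule.sub_mem _ (Wn_f v 0 n (ih a ha)) (Submodule.smul_mem _ _ (Wn_f v 0 n ha)))
      (Submodule.sub_mem _ (Wn_f v 1 n (ih b hb)) (Submodule.smul_mem _ _ (Wn_f v 1 n hb)))

theorem HwM.Wn_T {v : V} {lam : Fin 2 → ℤ} (H : HwM e f h T v lam) (n : ℕ) :
    ∀ x ∈ Wn f v n, T • x = (n : ℂ) • x := by
  induction n with
  | zero =>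
    intro x hx
    obtain ⟨c, rfl⟩ := Submodule.mem_span_singleton.mp hx
    rw [smul_comm', H.Tv]
    simp
  | succ n ih =>
    intro x hx
    obtain ⟨a, ha, b, hb, rfl⟩ := Wn_succ hx
    rw [smul_add, H.km.T_f, H.km.T_f, ih a ha, ih b hb, smul_comm', smul_comm']
    push_cast
    rw [add_smul, one_smul, smul_add]
    abel

theorem HwM.Wn_e0 {v : V} {lam : Fin 2 → ℤ} (H : HwM e f h T v lam) (i : Fin 2) :
    ∀ x ∈ Wn f v 0, e i • x = 0 := by
  intro x hx
  obtain ⟨c, rfl⟩ := Submodule.mem_span_singleton.mp hx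
  rw [smul_comm', H.ev, smul_zero]

theorem HwM.Wn_e {v : V} {lam : Fin 2 → ℤ} (H : HwM e f h T v lam) (i : Fin 2) (n : ℕ) :
    ∀ x ∈ Wn f v (n + 1), e i • x ∈ Wn f v n := by
  have key (n : ℕ) (hn : ∀ j : Fin 2, ∀ a ∈ Wn f v n, f j • (e i • a) ∈ Wn f v n) :
      ∀ x ∈ Wn f v (n + 1), e i • x ∈ Wn f v n := by
    intro x hx
    obtain ⟨a, ha, b, hb, rfl⟩ := Wn_succ hx
    rw [smul_add, H.km.e_f, H.km.e_f]
    refine Submodule.add_mem _ (Submodule.add_mem _ (hn 0 a ha) ?_)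
      (Submodule.add_mem _ (hn 1 b hb) ?_)
    · split_ifs
      · exact H.Wn_h i n a ha
      · exact Submodule.zero_mem _
    · split_ifs
      · exact H.Wn_h i n b hb
      · exact Submodule.zero_mem _
  induction n with
  | zero =>
    apply key
    intro j a ha
    rw [H.Wn_e0 i a ha, smul_zero]
    exact Submodule.zero_mem _
  | succ n ih =>
    apply key
    intro j a ha
    exact Wn_f v j n (ih a ha)

theorem HwM.iSup_Wn {v : V} {lam : Fin 2 → ℤ} (H : HwM e f h T v lam) :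
    ⨆ n, Wn f v n = ⊤ := by
  have hmem (n : ℕ) (x : V) (hx : x ∈ Wn f v n) : x ∈ ⨆ n, Wn f v n :=
    (le_iSup (fun n => Wn f v n) n) hx
  have key (a : A) (ha : ∀ n, ∀ x ∈ Wn f v n, a • x ∈ ⨆ n, Wn f v n) :
      ∀ x ∈ ⨆ n, Wn f v n, a • x ∈ ⨆ n, Wn f v n := by
    intro x hx
    induction hx using Submodule.iSup_induction' with
    | mem n x hx => exact ha n x hx
    | zero => rw [smul_zero]; exact Submodule.zero_mem _
    | add x y _ _ hx hy => rw [smul_add]; exact Submodule.add_mem _ hx hy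
  have hv : v ∈ ⨆ n, Wn f v n := hmem 0 v (Submodule.mem_span_singleton_self v)
  have h2 : (∀ i, ∀ x ∈ ⨆ n, Wn f v n, e i • x ∈ ⨆ n, Wn f v n) := by
    intro i
    apply key
    intro n x hx
    cases n with
    | zero => rw [H.Wn_e0 i x hx]; exact Submodule.zero_mem _
    | succ n => exact hmem n _ (H.Wn_e i n x hx)
  have h3 : (∀ i, ∀ x ∈ ⨆ n, Wn f v n, f i • x ∈ ⨆ n, Wn f v n) := by
    intro i
    apply key
    intro n x hx
    exact hmem (n + 1) _ (Wn_f v i n hx)
  have h4 : (∀ i, ∀ x ∈ ⨆ n, Wn f v n, h i • x ∈ ⨆ n, Wn f v n) := by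
    intro i
    apply key
    intro n x hx
    exact hmem n _ (H.Wn_h i n x hx)
  have h5 : ∀ x ∈ ⨆ n, Wn f v n, T • x ∈ ⨆ n, Wn f v n := by
    apply key
    intro n x hx
    rw [H.Wn_T n x hx]
    exact hmem n _ (Submodule.smul_mem _ _ hx)
  rcases H.simple (⨆ n, Wn f v n) h2 h3 h4 h5 with h1 | h1
  · rw [h1] at hv
    exact absurd ((Submodule.mem_bot ℂ).mp hv) H.ne
  · exact h1

theorem HwM.exists_pi {v : V} {lam : Fin 2 → ℤ} (H : HwM e f h T v lam) :
    ∃ p : V →ₗ[ℂ] ℂ, p v = 1 ∧ ∀ i x, p (f i • x) = 0 := by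
  have h1 : v ∉ (LinearMap.range (act (f 0) : V →ₗ[ℂ] V) ⊔ LinearMap.range (act (f 1))) := by
    intro hv
    have h2 : (LinearMap.range (act (f 0) : V →ₗ[ℂ] V) ⊔ LinearMap.range (act (f 1))) ≤
        ⨆ (μ : ℂ) (_ : μ ≠ 0), Module.End.eigenspace (act T : Module.End ℂ V) μ := by
      have h3 : ∀ i, LinearMap.range (act (f i) : V →ₗ[ℂ] V) ≤
          ⨆ (μ : ℂ) (_ : μ ≠ 0), Module.End.eigenspace (act T : Module.End ℂ V) μ := by
        intro i
        rintro _ ⟨x, rfl⟩
        have hx : x ∈ ⨆ n, Wn f v n := by rw [H.iSup_Wn]; trivial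
        induction hx using Submodule.iSup_induction' with
        | mem n x hx =>
          have h4 := H.Wn_T (n + 1) _ (Wn_f v i n hx)
          have h5 : (((n + 1 : ℕ) : ℂ)) ≠ 0 := by exact_mod_cast Nat.succ_ne_zero n
          exact Submodule.mem_iSup_of_mem _ (Submodule.mem_iSup_of_mem h5
            (Module.End.mem_eigenspace_iff.mpr h4))
        | zero => rw [map_zero]; exact Submodule.zero_mem _
        | add x y _ _ hx hy => rw [map_add]; exact Submodule.add_mem _ hx hy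
      exact sup_le (h3 0) (h3 1)
    have h6 := Module.End.eigenspaces_iSupIndep (act T : Module.End ℂ V) 0
    have h7 : v ∈ Module.End.eigenspace (act T : Module.End ℂ V) 0 := by
      rw [Module.End.mem_eigenspace_iff]
      simp [H.Tv]
    exact H.ne (Submodule.disjoint_def.mp h6 v h7 (h2 hv))
  obtain ⟨g, hg, hg'⟩ := Submodule.exists_le_ker_of_notMem h1
  refine ⟨(g v)⁻¹ • g, ?_, ?_⟩
  · simp [hg]
  · intro i x
    have : f i • x ∈ LinearMap.ker g := by
      apply hg'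
      fin_cases i
      · exact Submodule.mem_sup_left ⟨x, rfl⟩
      · exact Submodule.mem_sup_right ⟨x, rfl⟩
    rw [LinearMap.mem_ker] at this
    simp [this]

end

end Pool.Agent.GKO
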