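import Pool.Agent.GKO.Cert

/-!
# The lattice argument
-/

set_option autoImplicit false
set_option linter.unusedSectionVars false

namespace Pool.Agent.GKO

noncomputable section

variable {A V : Type} [Ring A] [Algebra ℂ A] [AddCommGroup V] [Module ℂ V] [Module A V]
  [IsScalarTower ℂ A V] {e f h : Fin 2 → A} {T : A}

theorem dp_succ_smul (x : A) (n : ℕ) (y : V) :
    ((n + 1 : ℕ) : ℂ) • (dp x (n + 1) • y) = x • (dp x n • y) := by
  rw [← mul_smul x, mul_dp, smul_assoc]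
  push_cast
  rfl

theorem dp_succ_smul' (x : A) (n : ℕ) (y : V) :
    ((n + 1 : ℕ) : ℂ) • (dp x (n + 1) • y) = dp x n • (x • y) := by
  have h1 : x * dp x n = dp x n * x := by
    rw [dp, mul_smul_comm, smul_mul_assoc, ← pow_succ, ← pow_succ']
  rw [dp_succ_smul, ← mul_smul, h1, mul_smul]

theorem dp_smul (x : A) (n : ℕ) (y : V) :
    dp x n • y = ((n.factorial : ℂ)⁻¹) • (x ^ n • y) := by
  rw [dp, smul_assoc]

/-- The multiples of 23. -/
def P23 (Z : Submodule ℤ V) : Submodule ℤ V := Z.map (LinearMap.lsmul ℤ V 23)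

theorem mem_P23 {Z : Submodule ℤ V} {x : V} : x ∈ P23 Z ↔ ∃ z ∈ Z, (23 : ℤ) • z = x := Iff.rfl

theorem P23_le (Z : Submodule ℤ V) : P23 Z ≤ Z := by
  rintro x ⟨z, hz, rfl⟩
  exact Z.smul_mem _ hz

theorem P23_stable {Z : Submodule ℤ V} (a : A) (ha : ∀ x ∈ Z, a • x ∈ Z) :
    ∀ x ∈ P23 Z, a • x ∈ P23 Z := by
  rintro x ⟨z, hz, rfl⟩
  refine ⟨a • z, ha z hz, ?_⟩
  simp only [LinearMap.lsmul_apply]
  rw [smul_comm]

theorem bez {Z : Submodule ℤ V} {x : V} (hx : x ∈ Z) (r : ℕ) (hr : (r : ℤ) • x ∈ P23 Z)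
    (hc : Nat.Coprime r 23) : x ∈ P23 Z := by
  have h1 : IsCoprime (r : ℤ) (23 : ℤ) := by
    have := Nat.isCoprime_iff_coprime.mpr hc
    exact_mod_cast this
  obtain ⟨a, b, hab⟩ := h1
  have h2 : x = a • ((r : ℤ) • x) + (23 : ℤ) • (b • x) := by
    rw [smul_smul, smul_smul, ← add_smul, mul_comm (23 : ℤ) b, hab, one_smul]
  rw [h2]
  exact (P23 Z).add_mem ((P23 Z).smul_mem _ hr) ⟨b • x, Z.smul_mem _ hx, rfl⟩

theorem int_lift {Z : Submodule ℤ V} (g : V →ₗ[ℂ] ℂ) (hg : ∀ x ∈ Z, ∃ n : ℤ, g x = n) :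
    ∃ φ : Z →ₗ[ℤ] ℤ, ∀ x : Z, ((φ x : ℤ) : ℂ) = g x := by
  choose φ hφ using hg
  refine ⟨{ toFun := fun x => φ x.1 x.2, map_add' := ?_, map_smul' := ?_ }, ?_⟩
  · intro x y
    apply Int.cast_injective (α := ℂ)
    push_cast
    rw [← hφ, ← hφ, ← hφ]
    simp
  · intro c x
    apply Int.cast_injective (α := ℂ)
    push_cast
    simp only [RingHom.id_apply, smul_eq_mul]
    push_cast
    rw [← hφ, ← hφ]
    have : c • (x : V) = (c : ℂ) • (x : V) := (Int.cast_smul_eq_zsmul ℂ c (x : V)).symm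
    rw [this, map_smul, smul_eq_mul]
    rfl
  · intro x
    exact (hφ x.1 x.2).symm

theorem evT_mem {v : V} (X : Tr) : evT f v X ∈ Dsp f v := by
  induction X with
  | z => exact Submodule.zero_mem _
  | nd c l r ihl ihr =>
    rw [evT]
    refine Submodule.add_mem _ (Submodule.add_mem _ (int_smul_mem (fmon_mem v []) c) ?_) ?_
    · have := Dsp_f v 0 1 _ ihl
      rwa [dp_one] at this
    · have := Dsp_f v 1 1 _ ihr
      rwa [dp_one] at this

theorem p_fmon {p : V →ₗ[ℂ] ℂ} (hpf : ∀ i x, p (f i • x) = 0) (y : V) (L : List (Fin 2 × ℕ)) :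
    p (fmon f L y) = 0 ∨ fmon f L y = y := by
  induction L with
  | nil => exact Or.inr rfl
  | cons a L ih =>
    obtain ⟨i, s⟩ := a
    cases s with
    | zero =>
      rw [fmon, dp_zero, one_smul]
      exact ih
    | succ s =>
      left
      have h1 := dp_succ_smul (f i) s (fmon f L y)
      have h2 : ((s + 1 : ℕ) : ℂ) ≠ 0 := by exact_mod_cast Nat.succ_ne_zero s
      have h3 : ((s + 1 : ℕ) : ℂ) * p (dp (f i) (s + 1) • fmon f L y) = 0 := by
        rw [← smul_eq_mul, ← map_smul, h1, hpf]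
      rcases mul_eq_zero.mp h3 with h4 | h4
      · exact absurd h4 h2
      · exact h4

theorem BB_allz {p : V →ₗ[ℂ] ℂ} (X : Tr) (hX : X.allz = true) (x : V) : BB e p X x = 0 := by
  induction X generalizing x with
  | z => rfl
  | nd c l r ihl ihr =>
    simp only [Tr.allz, Bool.and_eq_true, decide_eq_true_eq] at hX
    obtain ⟨⟨h1, h2⟩, h3⟩ := hX
    rw [BB_nd, ihl h2, ihr h3, h1]
    simp

section

variable {v : V} {lam : Fin 2 → ℤ} (H : HwM e f h T v lam)

include H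

theorem HwM.Dsp_e (i : Fin 2) (r : ℕ) : ∀ x ∈ Dsp f v, dp (e i) r • x ∈ Dsp f v := by
  have h1 : ∀ i r, 1 ≤ r → dp (e i) r • v ∈ (⊥ : Submodule ℤ V) := by
    intro i r hr
    obtain ⟨s, rfl⟩ : ∃ s, r = s + 1 := ⟨r - 1, by omega⟩
    rw [Submodule.mem_bot, dp_smul, pow_succ, mul_smul, H.ev, smul_zero, smul_zero]
  have h2 := H.km.e_Dsp H.hv (⊥ : Submodule ℤ V) (by
    intro i s x hx
    rw [(Submodule.mem_bot ℤ).mp hx, smul_zero]; exact Submodule.zero_mem _) (by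
    intro i s x hx
    rw [(Submodule.mem_bot ℤ).mp hx, smul_zero]; exact Submodule.zero_mem _) h1 i r
  rwa [sup_bot_eq] at h2

theorem HwM.BB_int {p : V →ₗ[ℂ] ℂ} (hpZ : ∀ x ∈ Dsp f v, ∃ n : ℤ, p x = n) (X : Tr) :
    ∀ x ∈ Dsp f v, ∃ n : ℤ, BB e p X x = n := by
  induction X with
  | z => exact fun x _ => ⟨0, by simp [BB_z]⟩
  | nd c l r ihl ihr =>
    intro x hx
    have he (i : Fin 2) : e i • x ∈ Dsp f v := by
      have := H.Dsp_e i 1 x hx
      rwa [dp_one] at this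
    obtain ⟨n, hn⟩ := hpZ x hx
    obtain ⟨n1, hn1⟩ := ihl _ (he 0)
    obtain ⟨n2, hn2⟩ := ihr _ (he 1)
    refine ⟨c * n + n1 + n2, ?_⟩
    rw [BB_nd, hn, hn1, hn2]
    push_cast
    rfl

theorem HwM.BB_pow {p : V →ₗ[ℂ] ℂ} (hp : p v = 1) (hpf : ∀ i x, p (f i • x) = 0) (i : Fin 2)
    (s : ℕ) (X : Tr) (y : V) :
    BB e p X (f i ^ s • y) = BB e p ((Tr.eact lam i)^[s] X) y := by
  induction s generalizing X with
  | zero => simp
  | succ s ih =>
    rw [pow_succ', mul_smul, H.BB_f hp hpf, ih, Function.iterate_succ_apply]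

theorem HwM.evT_pow (i : Fin 2) (s : ℕ) (X : Tr) :
    evT f v ((Tr.eact lam i)^[s] X) = e i ^ s • evT f v X := by
  induction s generalizing X with
  | zero => simp
  | succ s ih =>
    rw [Function.iterate_succ_apply, ih, H.evT_eact, pow_succ, mul_smul]

end

theorem allz_pow (i : Fin 2) : ((Tr.eact lam3 i)^[10] W).allz = true := by
  fin_cases i
  · exact chkN0
  · exact chkN1

theorem cop (r : ℕ) (h1 : 1 ≤ r) (h2 : r < 23) : Nat.Coprime r 23 := by
  have hp : Nat.Prime 23 := by norm_num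
  refine Nat.Coprime.symm ((Nat.Prime.coprime_iff_not_dvd hp).2 ?_)
  intro h
  have := Nat.le_of_dvd (by omega) h
  omega

section

variable {v : V} (H : HwM e f h T v lam3)

include H

theorem HwM.w_h0 : h 0 • evT f v W = (2 : ℂ) • evT f v W := by
  have h1 := evT_allz (f := f) v _ chkH0
  rw [evT_add, evT_sm, H.evT_hact, sub_self, zero_smul, add_zero] at h1
  have h2 : h 0 • evT f v W = -(((-2 : ℤ) : ℂ) • evT f v W) := eq_neg_of_add_eq_zero_left h1
  rw [h2, ← neg_smul]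
  norm_num

theorem HwM.w_h1 : h 1 • evT f v W = (1 : ℂ) • evT f v W := by
  have h1 := evT_allz (f := f) v _ chkH1
  rw [evT_add, evT_sm, H.evT_hact, sub_self, zero_smul, add_zero] at h1
  have h2 : h 1 • evT f v W = -(((-1 : ℤ) : ℂ) • evT f v W) := eq_neg_of_add_eq_zero_left h1
  rw [h2, ← neg_smul]
  norm_num

theorem HwM.w_T : T • evT f v W = (9 : ℂ) • evT f v W := by
  have h1 := evT_allz (f := f) v _ chkT
  rw [evT_add, evT_sm, H.evT_tact, Int.cast_zero, zero_smul, add_zero] at h1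
  have h2 : T • evT f v W = -(((-9 : ℤ) : ℂ) • evT f v W) := eq_neg_of_add_eq_zero_left h1
  rw [h2, ← neg_smul]
  norm_num

theorem HwM.w_e {p : V →ₗ[ℂ] ℂ} (hp : p v = 1) (hpf : ∀ i x, p (f i • x) = 0) (i : Fin 2) :
    evT f v ((W.eact lam3 i).add ((if i = 0 then W0 else W1).sm (-23))) = 0 := by
  fin_cases i
  · exact H.evT_kills hp hpf 9 _ chk0
  · exact H.evT_kills hp hpf 9 _ chk1

theorem HwM.w_e' {p : V →ₗ[ℂ] ℂ} (hp : p v = 1) (hpf : ∀ i x, p (f i • x) = 0) (i : Fin 2) :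
    e i • evT f v W = (23 : ℤ) • evT f v (if i = 0 then W0 else W1) := by
  have h1 := H.w_e hp hpf i
  rw [evT_add, evT_sm, H.evT_eact] at h1
  have h2 := eq_neg_of_add_eq_zero_left h1
  rw [h2, ← neg_smul, ← Int.cast_smul_eq_zsmul ℂ]
  push_cast
  rw [neg_neg]

theorem HwM.w_pow (i : Fin 2) (r : ℕ) (hr : 10 ≤ r) : e i ^ r • evT f v W = 0 := by
  obtain ⟨s, rfl⟩ : ∃ s, r = s + 10 := ⟨r - 10, by omega⟩
  rw [pow_add, mul_smul, ← H.evT_pow, evT_allz _ _ (allz_pow i), smul_zero]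

/-- `e_i^{(r)} w` is divisible by 23 in the lattice. -/
theorem HwM.w_dp {p : V →ₗ[ℂ] ℂ} (hp : p v = 1) (hpf : ∀ i x, p (f i • x) = 0) (i : Fin 2)
    (r : ℕ) (hr : 1 ≤ r) : dp (e i) r • evT f v W ∈ P23 (Dsp f v) := by
  by_cases h10 : 10 ≤ r
  · rw [dp_smul, H.w_pow i r h10, smul_zero]
    exact Submodule.zero_mem _
  · obtain ⟨s, rfl⟩ : ∃ s, r = s + 1 := ⟨r - 1, by omega⟩
    refine bez (H.Dsp_e i _ _ (evT_mem W)) (s + 1) ?_ (cop _ (by omega) (by omega))
    have h1 := dp_succ_smul' (e i) s (evT f v W)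
    rw [H.w_e' hp hpf, smul_comm (dp (e i) s) (23 : ℤ)] at h1
    rw [← Int.cast_smul_eq_zsmul ℂ]
    refine ⟨dp (e i) s • evT f v (if i = 0 then W0 else W1), H.Dsp_e i _ _ (evT_mem _), ?_⟩
    rw [LinearMap.lsmul_apply, ← h1]
    push_cast
    rfl

/-- The lattice. -/
def NN (f : Fin 2 → A) (v : V) : Submodule ℤ V := Dsp f (evT f v W) ⊔ P23 (Dsp f v)

theorem HwM.NN_e {p : V →ₗ[ℂ] ℂ} (hp : p v = 1) (hpf : ∀ i x, p (f i • x) = 0) (i : Fin 2)
    (r : ℕ) : ∀ x ∈ NN f v, dp (e i) r • x ∈ NN f v := by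
  refine H.km.e_Dsp (m := ![2, 1]) ?_ _ ?_ ?_ ?_ i r
  · intro i
    fin_cases i
    · have := H.w_h0
      simpa using this
    · have := H.w_h1
      simpa using this
  · intro i s
    exact P23_stable _ (H.Dsp_e i s)
  · intro i s
    exact P23_stable _ (Dsp_f v i s)
  · intro i r hr
    exact H.w_dp hp hpf i r hr

omit H in
theorem NN_f (i : Fin 2) (r : ℕ) : ∀ x ∈ NN f v, dp (f i) r • x ∈ NN f v :=
  KM.f_Dsp (P23 (Dsp f v)) (fun i s => P23_stable _ (Dsp_f v i s)) i r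

omit H in
theorem w_NN : evT f v W ∈ NN f v := Submodule.mem_sup_left (fmon_mem _ [])

theorem HwM.exists_phi {p : V →ₗ[ℂ] ℂ} (hp : p v = 1) (hpf : ∀ i x, p (f i • x) = 0) :
    ∃ φ : Dsp f v →ₗ[ℤ] ℤ, φ ⟨v, fmon_mem v []⟩ = 1 ∧
      ∀ x : Dsp f v, (x : V) ∈ NN f v → (23 : ℤ) ∣ φ x := by
  have hpZ : ∀ x ∈ Dsp f v, ∃ n : ℤ, p x = n := by
    intro x hx
    induction hx using Submodule.span_induction with
    | mem x hx =>
      obtain ⟨L, rfl⟩ := hx
      rcases p_fmon hpf v L with h1 | h1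
      · exact ⟨0, by simpa using h1⟩
      · exact ⟨1, by simp only [h1]; rw [hp]; simp⟩
    | zero => exact ⟨0, by simp⟩
    | add x y _ _ hx hy =>
      obtain ⟨n, hn⟩ := hx
      obtain ⟨m, hm⟩ := hy
      exact ⟨n + m, by rw [map_add, hn, hm]; push_cast; rfl⟩
    | smul c x _ hx =>
      obtain ⟨n, hn⟩ := hx
      refine ⟨c * n, ?_⟩
      rw [← Int.cast_smul_eq_zsmul ℂ, map_smul, hn]
      push_cast; rfl
  obtain ⟨φ, hφ⟩ := int_lift p hpZ
  have hw0 : p (evT f v W) = 0 := by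
    rw [evT_cst hp hpf, chkC]; simp
  refine ⟨φ, ?_, ?_⟩
  · apply Int.cast_injective (α := ℂ)
    rw [hφ]
    simpa using hp
  · rintro ⟨x, hxZ⟩ hx
    obtain ⟨a, ha, b, ⟨z, hz, rfl⟩, rfl⟩ := Submodule.mem_sup.mp hx
    have h1 : p a = 0 := by
      clear hx hxZ
      induction ha using Submodule.span_induction with
      | mem x hx =>
        obtain ⟨L, rfl⟩ := hx
        rcases p_fmon hpf (evT f v W) L with h1 | h1
        · exact h1
        · simp only [h1]; exact hw0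
      | zero => simp
      | add x y _ _ hx hy => rw [map_add, hx, hy, add_zero]
      | smul c x _ hx => rw [← Int.cast_smul_eq_zsmul ℂ, map_smul, hx, smul_zero]
    obtain ⟨n, hn⟩ := hpZ z hz
    refine ⟨n, ?_⟩
    apply Int.cast_injective (α := ℂ)
    rw [hφ]
    simp only [LinearMap.lsmul_apply]
    rw [map_add, h1, ← Int.cast_smul_eq_zsmul ℂ, map_smul, hn]
    push_cast
    simp

theorem HwM.exists_theta {p : V →ₗ[ℂ] ℂ} (hp : p v = 1) (hpf : ∀ i x, p (f i • x) = 0) :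
    ∃ θ : Dsp f v →ₗ[ℤ] ℤ, ¬ (23 : ℤ) ∣ θ ⟨evT f v W, evT_mem W⟩ := by
  have hpZ : ∀ x ∈ Dsp f v, ∃ n : ℤ, p x = n := by
    intro x hx
    induction hx using Submodule.span_induction with
    | mem x hx =>
      obtain ⟨L, rfl⟩ := hx
      rcases p_fmon hpf v L with h1 | h1
      · exact ⟨0, by simpa using h1⟩
      · exact ⟨1, by simp only [h1]; rw [hp]; simp⟩
    | zero => exact ⟨0, by simp⟩
    | add x y _ _ hx hy =>
      obtain ⟨n, hn⟩ := hx
      obtain ⟨m, hm⟩ := hy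
      exact ⟨n + m, by rw [map_add, hn, hm]; push_cast; rfl⟩
    | smul c x _ hx =>
      obtain ⟨n, hn⟩ := hx
      refine ⟨c * n, ?_⟩
      rw [← Int.cast_smul_eq_zsmul ℂ, map_smul, hn]
      push_cast; rfl
  have hint := fun X => H.BB_int hpZ X
  have hfm : ∀ L, ∃ n : ℤ, BB e p W (fmon f L v) = 23 * n := by
    intro L
    induction L with
    | nil =>
      refine ⟨0, ?_⟩
      rw [fmon, H.BB_v hp hpf, chkC]; simp
    | cons a L ih =>
      obtain ⟨i, s⟩ := a
      cases s with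
      | zero =>
        rw [fmon, dp_zero, one_smul]
        exact ih
      | succ s =>
        rw [fmon]
        by_cases h10 : 10 ≤ s + 1
        · refine ⟨0, ?_⟩
          rw [dp_smul, map_smul, H.BB_pow hp hpf]
          obtain ⟨t, ht⟩ : ∃ t, s + 1 = t + 10 := ⟨s + 1 - 10, by omega⟩
          have h2 : ∀ t (X : Tr), X.allz = true → ∀ y,
              BB e p ((Tr.eact lam3 i)^[t] X) y = 0 := by
            intro t X hX y
            rw [← H.BB_pow hp hpf, BB_allz X hX]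
          rw [ht, Function.iterate_add_apply, h2 _ _ (allz_pow i)]
          simp
        · have h1 := dp_succ_smul (f i) s (fmon f L v)
          have hy : dp (f i) s • fmon f L v ∈ Dsp f v := fmon_mem v ((i, s) :: L)
          have hy' : dp (f i) (s + 1) • fmon f L v ∈ Dsp f v := fmon_mem v ((i, s + 1) :: L)
          obtain ⟨n, hn⟩ := hint W _ hy'
          obtain ⟨n', hn'⟩ := hint (if i = 0 then W0 else W1) _ hy
          have h3 : BB e p W (f i • (dp (f i) s • fmon f L v)) = 23 * n' := by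
            rw [H.BB_f hp hpf]
            have h4 := H.BB_zero hp hpf _ (H.w_e hp hpf i) (dp (f i) s • fmon f L v)
            rw [BB_add, BB_sm, hn'] at h4
            push_cast at h4
            linear_combination h4
          rw [← h1, map_smul, hn, smul_eq_mul] at h3
          have h5 : ((s + 1 : ℕ) : ℤ) * n = 23 * n' := by exact_mod_cast h3
          have h6 : (23 : ℤ) ∣ n := by
            have h7 : IsCoprime (23 : ℤ) ((s + 1 : ℕ) : ℤ) := by
              have := Nat.isCoprime_iff_coprime.mpr (cop (s + 1) (by omega) (by omega)).symm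
              exact_mod_cast this
            exact h7.dvd_of_dvd_mul_left ⟨n', h5⟩
          obtain ⟨m, rfl⟩ := h6
          exact ⟨m, by rw [hn]; push_cast; rfl⟩
  have hdiv : ∀ x ∈ Dsp f v, ∃ n : ℤ, ((23 : ℂ)⁻¹ • BB e p W) x = n := by
    intro x hx
    induction hx using Submodule.span_induction with
    | mem x hx =>
      obtain ⟨L, rfl⟩ := hx
      obtain ⟨n, hn⟩ := hfm L
      refine ⟨n, ?_⟩
      rw [LinearMap.smul_apply, hn, smul_eq_mul]
      ring
    | zero => exact ⟨0, by simp⟩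
    | add x y _ _ hx hy =>
      obtain ⟨n, hn⟩ := hx
      obtain ⟨m, hm⟩ := hy
      exact ⟨n + m, by rw [map_add, hn, hm]; push_cast; rfl⟩
    | smul c x _ hx =>
      obtain ⟨n, hn⟩ := hx
      refine ⟨c * n, ?_⟩
      rw [← Int.cast_smul_eq_zsmul ℂ, map_smul, hn]
      push_cast; rfl
  obtain ⟨θ, hθ⟩ := int_lift _ hdiv
  refine ⟨θ, ?_⟩
  have h1 := hθ ⟨evT f v W, evT_mem W⟩
  rw [LinearMap.smul_apply, H.BB_Bt hp hpf, chkB, smul_eq_mul] at h1
  have h2 : θ ⟨evT f v W, evT_mem W⟩ = 439502976 := by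
    apply Int.cast_injective (α := ℂ)
    rw [h1]; norm_num
  rw [h2]
  norm_num

end

end

end Pool.Agent.GKO
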