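import Pool.Agent.GKO.Defs

/-!
# Divided powers in `sl_2`
-/

set_option autoImplicit false

namespace Pool.Agent.GKO

noncomputable section

section Basic

variable {A : Type} [Ring A] [Algebra ℂ A]

/-- Divided powers indexed by the integers (zero for negative index). -/
def dz (x : A) (n : ℤ) : A := if 0 ≤ n then dp x n.toNat else 0

theorem dz_nat (x : A) (n : ℕ) : dz x (n : ℤ) = dp x n := by
  simp [dz]

theorem dz_neg (x : A) (n : ℤ) (hn : n < 0) : dz x n = 0 := by
  simp [dz, not_le.mpr hn]

theorem mul_dp (x : A) (n : ℕ) : x * dp x n = ((n : ℂ) + 1) • dp x (n + 1) := by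
  rw [dp, dp, mul_smul_comm, ← pow_succ', smul_smul, Nat.factorial_succ]
  congr 1
  have h1 : ((n : ℂ) + 1) ≠ 0 := by exact_mod_cast Nat.succ_ne_zero n
  have h2 : ((n.factorial : ℕ) : ℂ) ≠ 0 := by exact_mod_cast Nat.factorial_ne_zero n
  push_cast
  field_simp

theorem mul_dz (x : A) (n : ℤ) : x * dz x n = ((n : ℂ) + 1) • dz x (n + 1) := by
  rcases lt_trichotomy n (-1) with h | h | h
  · rw [dz_neg x n (by omega), dz_neg x (n + 1) (by omega)]; simp
  · subst h
    rw [dz_neg x (-1) (by omega)]; simp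
  · obtain ⟨m, rfl⟩ := Int.eq_ofNat_of_zero_le (show 0 ≤ n by omega)
    have := mul_dp x m
    rw [dz_nat, show (m : ℤ) + 1 = ((m + 1 : ℕ) : ℤ) by push_cast; ring, dz_nat, this]
    push_cast
    rfl

theorem choose_rec (M : ℤ) (t : ℕ) :
    ((t : ℂ) + 1) * (Ring.choose M (t + 1) : ℤ) = ((M : ℂ) - t) * (Ring.choose M t : ℤ) := by
  have h := Ring.choose_smul_choose M (show t ≤ t + 1 by omega)
  rw [Nat.choose_succ_self_right, show t + 1 - t = 1 by omega, Ring.choose_one_right] at h
  have h2 : (((t : ℤ) + 1) * Ring.choose M (t + 1) : ℤ) = (M - t) * Ring.choose M t := by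
    rw [nsmul_eq_mul] at h
    push_cast at h
    rw [h]; ring
  exact_mod_cast h2

theorem choose_succ (M : ℤ) (t : ℕ) :
    ((Ring.choose (M + 1) (t + 1) : ℤ) : ℂ) = (Ring.choose M t : ℤ) + (Ring.choose M (t + 1) : ℤ) := by
  rw [Ring.choose_succ_succ]; push_cast; rfl

end Basic

section Sl2

variable {A V : Type} [Ring A] [Algebra ℂ A] [AddCommGroup V] [Module ℂ V] [Module A V]
  [IsScalarTower ℂ A V]

theorem smul_comm' (c : ℂ) (a : A) (x : V) : a • (c • x) = c • (a • x) := by
  rw [← algebraMap_smul A c x, ← algebraMap_smul A c (a • x), ← mul_smul, ← mul_smul,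
    Algebra.commutes]

theorem weight_e {e h : A} (he : h * e - e * h = (2 : ℂ) • e) {z : V} {m : ℂ}
    (hz : h • z = m • z) : h • (e • z) = (m + 2) • (e • z) := by
  have h1 : h * e = e * h + (2 : ℂ) • e := by rw [← he]; abel
  rw [← mul_smul, h1, add_smul, mul_smul, hz, smul_comm', smul_assoc, ← add_smul]

theorem weight_dp {x h : A} (c : ℂ) (hx : h * x - x * h = c • x) {z : V} {m : ℂ}
    (hz : h • z = m • z) (n : ℕ) : h • (dp x n • z) = (m + n * c) • (dp x n • z) := by
  have h1 : h * x = x * h + c • x := by rw [← hx]; abel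
  have h2 : ∀ n : ℕ, h • (x ^ n • z) = (m + n * c) • (x ^ n • z) := by
    intro n
    induction n with
    | zero => simp [hz]
    | succ n ih =>
      rw [pow_succ', mul_smul, ← mul_smul h x, h1, add_smul, mul_smul, ih, smul_comm', smul_assoc,
        ← add_smul]
      congr 1
      push_cast; ring
  rw [dp, smul_assoc, smul_comm', h2, smul_comm]

theorem weight_dz {x h : A} (c : ℂ) (hx : h * x - x * h = c • x) {z : V} {m : ℂ}
    (hz : h • z = m • z) (n : ℤ) : h • (dz x n • z) = (m + n * c) • (dz x n • z) := by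
  by_cases hn : 0 ≤ n
  · obtain ⟨k, rfl⟩ := Int.eq_ofNat_of_zero_le hn
    rw [dz_nat]
    have := weight_dp c hx hz k
    exact_mod_cast this
  · rw [dz_neg x n (by omega)]; simp

theorem css (a b : ℂ) (x : V) : a • (b • x) = (a * b) • x := smul_smul a b x

variable {e f h : A} (hef : e * f - f * e = h) (hhe : h * e - e * h = (2 : ℂ) • e)
  (hhf : h * f - f * h = (-2 : ℂ) • f)

include hef hhf

theorem e_dzf {z : V} {m : ℂ} (hz : h • z = m • z) (a : ℤ) :
    e • (dz f a • z) = dz f a • (e • z) + (m - a + 1) • (dz f (a - 1) • z) := by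
  by_cases ha : 0 ≤ a
  · obtain ⟨n, rfl⟩ := Int.eq_ofNat_of_zero_le ha
    clear ha
    induction n with
    | zero =>
      have h1 : dz f (((0 : ℕ) : ℤ) - 1) = 0 := dz_neg f _ (by norm_num)
      have h2 : dz f ((0 : ℕ) : ℤ) = 1 := by rw [dz_nat, dp_zero]
      rw [h1, h2]
      simp
    | succ n ih =>
      have h0 : ((n : ℂ) + 1) ≠ 0 := by exact_mod_cast Nat.succ_ne_zero n
      have hc : (((n : ℕ) : ℤ) : ℂ) = (n : ℂ) := by push_cast; rfl
      have h1 := mul_dz f (n : ℤ)
      rw [hc] at h1
      have h1' (y : V) : f • (dz f (n : ℤ) • y) = ((n : ℂ) + 1) • (dz f ((n : ℤ) + 1) • y) := by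
        rw [← mul_smul, h1, smul_assoc]
      have h2 : e * f = f * e + h := by rw [← hef]; abel
      have h3' (y : V) : f • (dz f ((n : ℤ) - 1) • y) = (n : ℂ) • (dz f (n : ℤ) • y) := by
        have h3 := mul_dz f ((n : ℤ) - 1)
        rw [← mul_smul, h3, smul_assoc, sub_add_cancel]
        congr 1
        push_cast; ring
      have hw := weight_dz (-2) hhf hz (n : ℤ)
      rw [hc] at hw ih
      have e1 : ((n : ℂ) + 1) • (e • (dz f ((n : ℤ) + 1) • z)) =
          e • (f • (dz f (n : ℤ) • z)) := by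
        rw [h1', smul_comm']
      have e2 : e • (f • (dz f (n : ℤ) • z)) =
          f • (e • (dz f (n : ℤ) • z)) + h • (dz f (n : ℤ) • z) := by
        rw [← mul_smul e f, h2, add_smul, mul_smul]
      have e3 : f • (e • (dz f (n : ℤ) • z)) =
          ((n : ℂ) + 1) • (dz f ((n : ℤ) + 1) • (e • z)) +
            ((m - n + 1) * n) • (dz f (n : ℤ) • z) := by
        rw [ih, smul_add, h1', smul_comm', h3', css]
      have key : ((n : ℂ) + 1) • (e • (dz f ((n : ℤ) + 1) • z)) =
          ((n : ℂ) + 1) • (dz f ((n : ℤ) + 1) • (e • z) +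
            (m - n) • (dz f (n : ℤ) • z)) := by
        rw [e1, e2, e3, hw, smul_add, css, add_assoc, ← add_smul]
        congr 2
        ring
      have key2 := smul_right_injective V h0 key
      have hcast : (((n + 1 : ℕ) : ℤ)) = (n : ℤ) + 1 := by push_cast; ring
      rw [hcast, key2, add_sub_cancel_right]
      congr 2
      push_cast
      ring
  · rw [dz_neg f a (by omega), dz_neg f (a - 1) (by omega)]; simp

include hhe

theorem dp_ef {z : V} {m : ℤ} (hz : h • z = (m : ℂ) • z) (r : ℕ) (s : ℤ) :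
    dp e r • (dz f s • z) = ∑ t ∈ Finset.range (r + 1),
      ((Ring.choose (m + r - s) t : ℤ) : ℂ) • (dz f (s - t) • (dz e (r - t) • z)) := by
  induction r with
  | zero => simp [dp_zero, dz]
  | succ r ih =>
    have h0 : ((r : ℂ) + 1) ≠ 0 := by exact_mod_cast Nat.succ_ne_zero r
    apply smul_right_injective V h0
    show ((r : ℂ) + 1) • _ = ((r : ℂ) + 1) • _
    rw [← smul_assoc, ← mul_dp, mul_smul, ih, Finset.smul_sum]
    have hstep : ∀ t ∈ Finset.range (r + 1),
        e • (((Ring.choose (m + r - s) t : ℤ) : ℂ) • (dz f (s - t) • (dz e (r - t) • z))) =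
        (((Ring.choose (m + r - s) t : ℤ) : ℂ) * ((r : ℂ) - t + 1)) •
            (dz f (s - t) • (dz e (r + 1 - t) • z)) +
        (((Ring.choose (m + r - s) t : ℤ) : ℂ) * (m + 2 * r - t - s + 1)) •
            (dz f (s - (t + 1)) • (dz e (r + 1 - (t + 1)) • z)) := by
      intro t ht
      have hw := weight_dz 2 hhe hz ((r : ℤ) - t)
      rw [smul_comm', e_dzf hef hhf hw, ← mul_smul e, mul_dz, smul_assoc, smul_comm', smul_add,
        css, css]
      have e1 : (r : ℤ) - t + 1 = r + 1 - t := by ring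
      have e2 : s - (t : ℤ) - 1 = s - (t + 1) := by ring
      have e3 : (r : ℤ) + 1 - (t + 1) = r - t := by ring
      rw [e1, e2, e3]
      congr 2
      · push_cast; ring
      · congr 1
        push_cast; ring
    rw [Finset.sum_congr rfl hstep, Finset.sum_add_distrib, Finset.smul_sum]
    have hrhs : ∑ t ∈ Finset.range (r + 1 + 1), ((r : ℂ) + 1) •
        (((Ring.choose (m + (r + 1 : ℕ) - s) t : ℤ) : ℂ) •
          (dz f (s - t) • (dz e ((r + 1 : ℕ) - t) • z))) =
        ∑ t ∈ Finset.range (r + 1 + 1),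
          ((((Ring.choose (m + r - s) t : ℤ) : ℂ) * ((r : ℂ) - t + 1)) •
            (dz f (s - t) • (dz e (r + 1 - t) • z)) +
          (if t = 0 then 0 else
            ((Ring.choose (m + r - s) (t - 1) : ℤ) : ℂ) * (m + 2 * r - (t - 1) - s + 1)) •
            (dz f (s - t) • (dz e (r + 1 - t) • z))) := by
      refine Finset.sum_congr rfl ?_
      intro t ht
      rw [css, ← add_smul]
      congr 1
      · cases t with
        | zero =>
          rw [Ring.choose_zero_right, Ring.choose_zero_right]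
          simp
        | succ t =>
          have h1 := choose_rec (m + r - s) t
          have h2 := choose_succ (m + r - s) t
          rw [show m + ((r + 1 : ℕ) : ℤ) - s = m + r - s + 1 by push_cast; ring, h2]
          simp only [Nat.succ_ne_zero, if_false, Nat.add_sub_cancel]
          push_cast at h1 ⊢
          linear_combination h1
    rw [hrhs, Finset.sum_add_distrib]
    congr 1
    · rw [Finset.sum_range_succ _ (r + 1)]
      have : (dz e ((r : ℤ) + 1 - ((r + 1 : ℕ) : ℤ))) = dz e 0 := by
        congr 1; push_cast; ring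
      rw [this]
      have h5 : ((r : ℂ) - ((r + 1 : ℕ) : ℂ) + 1) = 0 := by push_cast; ring
      rw [h5]
      simp
    · rw [Finset.sum_range_succ' _ (r + 1)]
      simp

end Sl2

end

end Pool.Agent.GKO
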