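import Pool.Agent.GKO.KM

/-!
# Nondegeneracy and computations with trees of words
-/

set_option autoImplicit false
set_option linter.unusedSectionVars false

namespace Pool.Agent.GKO

noncomputable section

variable {A V : Type} [Ring A] [Algebra ℂ A] [AddCommGroup V] [Module ℂ V] [Module A V]
  [IsScalarTower ℂ A V] {e f h : Fin 2 → A} {T : A}

/-! ### Nondegeneracy -/

/-- The action of a word in the `e i` (the first letter acts first). -/
def ew (e : Fin 2 → A) : List (Fin 2) → V →ₗ[ℂ] V
  | [] => LinearMap.id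
  | i :: w => (ew e w).comp (act (e i))

theorem HwM.split {v : V} {lam : Fin 2 → ℤ} (H : HwM e f h T v lam) (x : V) :
    ∃ (c : ℂ) (a b : V), x = c • v + f 0 • a + f 1 • b := by
  have hx : x ∈ ⨆ n, Wn f v n := by rw [H.iSup_Wn]; trivial
  induction hx using Submodule.iSup_induction' with
  | mem n x hx =>
    cases n with
    | zero =>
      obtain ⟨c, rfl⟩ := Submodule.mem_span_singleton.mp hx
      exact ⟨c, 0, 0, by simp⟩
    | succ n =>
      obtain ⟨a, ha, b, hb, rfl⟩ := Wn_succ hx
      exact ⟨0, a, b, by simp⟩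
  | zero => exact ⟨0, 0, 0, by simp⟩
  | add x y _ _ hx hy =>
    obtain ⟨c, a, b, rfl⟩ := hx
    obtain ⟨c', a', b', rfl⟩ := hy
    refine ⟨c + c', a + a', b + b', ?_⟩
    rw [add_smul, smul_add, smul_add]
    abel

section Pi

variable {v : V} {lam : Fin 2 → ℤ} (H : HwM e f h T v lam) {p : V →ₗ[ℂ] ℂ} (hp : p v = 1)
  (hpf : ∀ i x, p (f i • x) = 0)

include H hp hpf

theorem HwM.p_h (i : Fin 2) (x : V) : p (h i • x) = lam i * p x := by
  obtain ⟨c, a, b, rfl⟩ := H.split x
  have h1 : p (h i • (c • v)) = lam i * c := by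
    rw [smul_comm' c (h i) v, H.hv, map_smul, map_smul, hp, smul_eq_mul, smul_eq_mul]
    ring
  rw [smul_add, smul_add, H.km.h_f, H.km.h_f, map_add, map_add, map_sub, map_sub, map_smul _ _ (f 0 • a),
    map_smul _ _ (f 1 • b), hpf, hpf, hpf, hpf, h1, map_add, map_add, hpf, hpf, map_smul, hp]
  simp

theorem HwM.p_T (x : V) : p (T • x) = 0 := by
  obtain ⟨c, a, b, rfl⟩ := H.split x
  have h1 : p (T • (c • v)) = 0 := by
    rw [smul_comm' c T v, H.Tv, smul_zero, map_zero]
  rw [smul_add, smul_add, H.km.T_f, H.km.T_f, map_add, map_add, map_add, map_add, h1, hpf, hpf,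
    hpf, hpf]
  simp

theorem HwM.nondeg {x : V} (hx : ∀ w, p (ew e w x) = 0) : x = 0 := by
  let K : Submodule ℂ V :=
    { carrier := {x | ∀ w, p (ew e w x) = 0}
      add_mem' := by
        intro a b ha hb w
        rw [map_add, map_add, ha w, hb w, add_zero]
      zero_mem' := by
        intro w
        rw [map_zero, map_zero]
      smul_mem' := by
        intro c a ha w
        rw [map_smul, map_smul, ha w, smul_zero] }
  have hmem (x : V) : x ∈ K ↔ ∀ w, p (ew e w x) = 0 := Iff.rfl
  have he : ∀ i, ∀ x ∈ K, e i • x ∈ K := by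
    intro i x hx w
    exact hx (i :: w)
  have hh : ∀ i, ∀ x ∈ K, h i • x ∈ K := by
    intro i x hx w
    induction w generalizing x with
    | nil =>
      have := hx []
      simp only [ew, LinearMap.id_apply] at this ⊢
      rw [H.p_h hp hpf, this, mul_zero]
    | cons j w ih =>
      have h1 := ih _ (he j x hx)
      have h2 := hx (j :: w)
      simp only [ew, LinearMap.comp_apply, act_apply] at h2 ⊢
      rw [H.km.h_e, map_add, map_add, map_smul _ (car i j : ℂ), map_smul _ (car i j : ℂ), h2,
        smul_zero, add_zero] at h1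
      exact h1
  have hT : ∀ x ∈ K, T • x ∈ K := by
    intro x hx w
    induction w generalizing x with
    | nil =>
      simp only [ew, LinearMap.id_apply]
      rw [H.p_T hp hpf]
    | cons j w ih =>
      have h1 := ih _ (he j x hx)
      have h2 := hx (j :: w)
      simp only [ew, LinearMap.comp_apply, act_apply] at h2 ⊢
      rw [H.km.T_e, map_sub, map_sub, h2, sub_zero] at h1
      exact h1
  have hf : ∀ i, ∀ x ∈ K, f i • x ∈ K := by
    intro i x hx w
    induction w generalizing x with
    | nil =>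
      simp only [ew, LinearMap.id_apply]
      rw [hpf]
    | cons j w ih =>
      have h1 := ih _ (he j x hx)
      simp only [ew, LinearMap.comp_apply, act_apply]
      rw [H.km.e_f, map_add, map_add, h1, zero_add]
      split_ifs
      · exact hh j x hx w
      · rw [map_zero, map_zero]
  have hv : v ∉ K := by
    intro hv
    have := hv []
    simp only [ew, LinearMap.id_apply] at this
    rw [hp] at this
    exact one_ne_zero this
  rcases H.simple K he hf hh hT with h1 | h1
  · have : x ∈ K := hx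
    rw [h1] at this
    exact (Submodule.mem_bot ℂ).mp this
  · rw [h1] at hv
    exact absurd Submodule.mem_top hv

theorem HwM.nondeg' {x : V} (hx : p x = 0) (hx' : ∀ i, e i • x = 0) : x = 0 := by
  apply H.nondeg hp hpf
  intro w
  cases w with
  | nil => exact hx
  | cons i w =>
    simp only [ew, LinearMap.comp_apply, act_apply]
    rw [hx', map_zero, map_zero]

end Pi

end

/-! ### Trees of words -/

/-- Integral combinations of words in two letters: `nd c l r` is `c v + f_0 l + f_1 r`. -/
inductive Tr : Type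
  | z : Tr
  | nd : ℤ → Tr → Tr → Tr

namespace Tr

/-- Smart constructor. -/
def mk (c : ℤ) (l r : Tr) : Tr :=
  match l with
  | z => match r with
    | z => match c with
      | Int.ofNat 0 => z
      | c => nd c z z
    | r => nd c z r
  | l => nd c l r

/-- Addition. -/
def add : Tr → Tr → Tr
  | z, y => y
  | nd c l r, z => nd c l r
  | nd c l r, nd c' l' r' => mk (c + c') (add l l') (add r r')

/-- Scalar multiplication. -/
def sm (k : ℤ) : Tr → Tr
  | z => z
  | nd c l r => nd (k * c) (sm k l) (sm k r)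

/-- The constant term. -/
def cst : Tr → ℤ
  | z => 0
  | nd c _ _ => c

/-- The tree is zero. -/
def allz : Tr → Bool
  | z => true
  | nd c l r => decide (c = 0) && allz l && allz r

/-- Action of `h i`. -/
def hact (i : Fin 2) (a : ℤ) : Tr → Tr
  | z => z
  | nd c l r => nd (a * c) (hact i (a - car i 0) l) (hact i (a - car i 1) r)

/-- Action of the length operator `T`. -/
def tact (a : ℤ) : Tr → Tr
  | z => z
  | nd c l r => nd (a * c) (tact (a + 1) l) (tact (a + 1) r)

/-- Left or right branch. -/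
def br (i : Fin 2) (l r : Tr) : Tr := if i = 0 then l else r

/-- Action of `e i`. -/
def eact (lam : Fin 2 → ℤ) (i : Fin 2) : Tr → Tr
  | z => z
  | nd _ l r => add (mk 0 (eact lam i l) (eact lam i r)) (hact i (lam i) (br i l r))

/-- The vector is annihilated by all words of length at most `n` in the `e i`. -/
def kills (lam : Fin 2 → ℤ) : ℕ → Tr → Bool
  | 0, X => allz X
  | _ + 1, z => true
  | n + 1, nd c l r => decide (c = 0) && kills lam n (eact lam 0 (nd c l r)) &&
      kills lam n (eact lam 1 (nd c l r))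

/-- The contravariant form. -/
def Bt (lam : Fin 2 → ℤ) : Tr → Tr → ℤ
  | z, _ => 0
  | nd c l r, Y => c * cst Y + Bt lam l (eact lam 0 Y) + Bt lam r (eact lam 1 Y)

end Tr

noncomputable section

variable {A V : Type} [Ring A] [Algebra ℂ A] [AddCommGroup V] [Module ℂ V] [Module A V]
  [IsScalarTower ℂ A V] {e f h : Fin 2 → A} {T : A}

/-- Evaluation of a tree. -/
def evT (f : Fin 2 → A) (v : V) : Tr → V
  | .z => 0
  | .nd c l r => (c : ℂ) • v + f 0 • evT f v l + f 1 • evT f v r

theorem evT_mk (v : V) (c : ℤ) (l r : Tr) :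
    evT f v (Tr.mk c l r) = (c : ℂ) • v + f 0 • evT f v l + f 1 • evT f v r := by
  unfold Tr.mk
  split
  · split
    · split
      · simp [evT]
      · simp [evT]
    · simp [evT]
  · simp [evT]

theorem evT_add (v : V) (X Y : Tr) : evT f v (X.add Y) = evT f v X + evT f v Y := by
  induction X generalizing Y with
  | z => simp [Tr.add, evT]
  | nd c l r ihl ihr =>
    cases Y with
    | z => simp [Tr.add, evT]
    | nd c' l' r' =>
      simp only [Tr.add, evT_mk, evT, ihl, ihr]
      push_cast
      rw [add_smul, smul_add, smul_add]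
      abel

theorem evT_sm (v : V) (k : ℤ) (X : Tr) : evT f v (X.sm k) = (k : ℂ) • evT f v X := by
  induction X with
  | z => simp [Tr.sm, evT]
  | nd c l r ihl ihr =>
    simp only [Tr.sm, evT, ihl, ihr, smul_add, smul_comm' (k : ℂ) (f 0), smul_comm' (k : ℂ) (f 1)]
    push_cast
    rw [css]

theorem evT_allz (v : V) (X : Tr) (hX : X.allz = true) : evT f v X = 0 := by
  induction X with
  | z => rfl
  | nd c l r ihl ihr =>
    simp only [Tr.allz, Bool.and_eq_true, decide_eq_true_eq] at hX
    obtain ⟨⟨h1, h2⟩, h3⟩ := hX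
    rw [evT, ihl h2, ihr h3, h1]
    simp

theorem HwM.evT_hact {v : V} {lam : Fin 2 → ℤ} (H : HwM e f h T v lam) (i : Fin 2) (a : ℤ)
    (X : Tr) : evT f v (X.hact i a) = h i • evT f v X + ((a : ℂ) - lam i) • evT f v X := by
  induction X generalizing a with
  | z => simp [Tr.hact, evT]
  | nd c l r ihl ihr =>
    rw [Tr.hact, evT, evT, ihl, ihr, smul_add (h i), smul_add (h i), H.km.h_f, H.km.h_f,
      smul_comm' (c : ℂ) (h i), H.hv, smul_add (f 0), smul_add (f 1)]
    simp only [smul_comm' _ (f 0), smul_comm' _ (f 1)]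
    push_cast
    simp only [smul_add, sub_smul, css]
    rw [mul_comm (c : ℂ) (lam i)]
    abel

theorem HwM.evT_tact {v : V} {lam : Fin 2 → ℤ} (H : HwM e f h T v lam) (a : ℤ)
    (X : Tr) : evT f v (X.tact a) = T • evT f v X + (a : ℂ) • evT f v X := by
  induction X generalizing a with
  | z => simp [Tr.tact, evT]
  | nd c l r ihl ihr =>
    rw [Tr.tact, evT, evT, ihl, ihr, smul_add T, smul_add T, H.km.T_f, H.km.T_f,
      smul_comm' (c : ℂ) T, H.Tv, smul_add (f 0), smul_add (f 1)]
    simp only [smul_comm' _ (f 0), smul_comm' _ (f 1)]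
    push_cast
    simp only [smul_add, add_smul, css, one_smul, smul_zero]
    abel

theorem HwM.evT_eact {v : V} {lam : Fin 2 → ℤ} (H : HwM e f h T v lam) (i : Fin 2)
    (X : Tr) : evT f v (X.eact lam i) = e i • evT f v X := by
  induction X with
  | z => simp [Tr.eact, evT]
  | nd c l r ihl ihr =>
    rw [Tr.eact, evT_add, evT_mk, evT, ihl, ihr, smul_add (e i), smul_add (e i), H.km.e_f, H.km.e_f,
      smul_comm' (c : ℂ) (e i), H.ev, H.evT_hact]
    rw [sub_self, zero_smul, add_zero, smul_zero, zero_add, Int.cast_zero, zero_smul, zero_add]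
    have h2 : h i • evT f v (Tr.br i l r) =
        (if i = 0 then h i • evT f v l else 0) + (if i = 1 then h i • evT f v r else 0) := by
      fin_cases i <;> simp [Tr.br]
    rw [h2]
    abel

theorem evT_cst {v : V} {p : V →ₗ[ℂ] ℂ} (hp : p v = 1)
    (hpf : ∀ i x, p (f i • x) = 0) (X : Tr) : p (evT f v X) = X.cst := by
  cases X with
  | z => simp [evT, Tr.cst]
  | nd c l r => rw [evT, map_add, map_add, hpf, hpf, map_smul, hp]; simp [Tr.cst]

theorem HwM.evT_kills {v : V} {lam : Fin 2 → ℤ} (H : HwM e f h T v lam) {p : V →ₗ[ℂ] ℂ}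
    (hp : p v = 1) (hpf : ∀ i x, p (f i • x) = 0) (n : ℕ) (X : Tr)
    (hX : X.kills lam n = true) : evT f v X = 0 := by
  induction n generalizing X with
  | zero => exact evT_allz v X hX
  | succ n ih =>
    cases X with
    | z => rfl
    | nd c l r =>
      simp only [Tr.kills, Bool.and_eq_true, decide_eq_true_eq] at hX
      obtain ⟨⟨h1, h2⟩, h3⟩ := hX
      apply H.nondeg' hp hpf
      · rw [evT_cst hp hpf, Tr.cst, h1, Int.cast_zero]
      · intro i
        rw [← H.evT_eact]
        fin_cases i
        · exact ih _ h2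
        · exact ih _ h3

/-- The pairing of a tree with a vector. -/
def BB (e : Fin 2 → A) (p : V →ₗ[ℂ] ℂ) : Tr → V →ₗ[ℂ] ℂ
  | .z => 0
  | .nd c l r => (c : ℂ) • p + (BB e p l).comp (act (e 0)) + (BB e p r).comp (act (e 1))

theorem BB_nd (p : V →ₗ[ℂ] ℂ) (c : ℤ) (l r : Tr) (x : V) :
    BB e p (.nd c l r) x = c * p x + BB e p l (e 0 • x) + BB e p r (e 1 • x) := rfl

theorem BB_z (p : V →ₗ[ℂ] ℂ) (x : V) : BB e p .z x = 0 := rfl

theorem BB_mk (p : V →ₗ[ℂ] ℂ) (c : ℤ) (l r : Tr) (x : V) :
    BB e p (.mk c l r) x = c * p x + BB e p l (e 0 • x) + BB e p r (e 1 • x) := by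
  unfold Tr.mk
  split
  · split
    · split
      · simp [BB_z]
      · simp [BB_z, BB_nd]
    · simp [BB_z, BB_nd]
  · simp [BB_nd]

theorem BB_add (p : V →ₗ[ℂ] ℂ) (X Y : Tr) (x : V) :
    BB e p (X.add Y) x = BB e p X x + BB e p Y x := by
  induction X generalizing Y x with
  | z => simp [Tr.add, BB_z]
  | nd c l r ihl ihr =>
    cases Y with
    | z => simp [Tr.add, BB_z]
    | nd c' l' r' =>
      simp only [Tr.add, BB_nd, BB_mk, ihl, ihr]
      push_cast
      ring

theorem BB_sm (p : V →ₗ[ℂ] ℂ) (k : ℤ) (X : Tr) (x : V) :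
    BB e p (X.sm k) x = k * BB e p X x := by
  induction X generalizing x with
  | z => simp [Tr.sm, BB_z]
  | nd c l r ihl ihr =>
    simp only [Tr.sm, BB_nd, ihl, ihr]
    push_cast
    ring

section Pi

variable {v : V} {lam : Fin 2 → ℤ} (H : HwM e f h T v lam) {p : V →ₗ[ℂ] ℂ} (hp : p v = 1)
  (hpf : ∀ i x, p (f i • x) = 0)

include H hp hpf

theorem HwM.BB_hact (i : Fin 2) (a : ℤ) (X : Tr) (x : V) :
    BB e p (X.hact i a) x = BB e p X (h i • x) + ((a : ℂ) - lam i) * BB e p X x := by
  induction X generalizing a x with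
  | z => simp [Tr.hact, BB_z]
  | nd c l r ihl ihr =>
    have h0 : e 0 • (h i • x) = h i • (e 0 • x) - (car i 0 : ℂ) • (e 0 • x) := by
      rw [H.km.h_e]; abel
    have h1 : e 1 • (h i • x) = h i • (e 1 • x) - (car i 1 : ℂ) • (e 1 • x) := by
      rw [H.km.h_e]; abel
    simp only [Tr.hact, BB_nd, ihl, ihr, h0, h1, map_sub, H.p_h hp hpf]
    rw [map_smul _ (car i 0 : ℂ), map_smul _ (car i 1 : ℂ)]
    push_cast
    simp only [smul_eq_mul]
    ring

theorem HwM.BB_f (i : Fin 2) (X : Tr) (x : V) :
    BB e p X (f i • x) = BB e p (X.eact lam i) x := by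
  induction X generalizing x with
  | z => simp [Tr.eact, BB_z]
  | nd c l r ihl ihr =>
    rw [Tr.eact, BB_add, BB_mk, BB_nd, hpf, H.km.e_f, H.km.e_f, map_add, map_add, ihl, ihr,
      H.BB_hact hp hpf]
    have h2 : BB e p (Tr.br i l r) (h i • x) =
        BB e p l (if 0 = i then h 0 • x else 0) + BB e p r (if 1 = i then h 1 • x else 0) := by
      fin_cases i <;> simp [Tr.br]
    rw [h2]
    simp only [mul_zero, zero_add, Int.cast_zero, zero_mul, sub_self, add_zero]
    ring

theorem HwM.BB_v (X : Tr) : BB e p X v = X.cst := by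
  cases X with
  | z => simp [BB_z, Tr.cst]
  | nd c l r => simp [BB_nd, H.ev, hp, Tr.cst]

/-- The form vanishes on trees which evaluate to zero. -/
theorem HwM.BB_zero (X : Tr) (hX : evT f v X = 0) (x : V) : BB e p X x = 0 := by
  have hx : x ∈ ⨆ n, Wn f v n := by rw [H.iSup_Wn]; trivial
  induction hx using Submodule.iSup_induction' with
  | mem n x hx =>
    induction n generalizing X x with
    | zero =>
      obtain ⟨c, rfl⟩ := Submodule.mem_span_singleton.mp hx
      rw [map_smul, H.BB_v hp hpf, ← evT_cst hp hpf, hX, map_zero, smul_zero]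
    | succ n ih =>
      obtain ⟨a, ha, b, hb, rfl⟩ := Wn_succ hx
      have h3 (i : Fin 2) : evT f v (X.eact lam i) = 0 := by
        rw [H.evT_eact, hX, smul_zero]
      rw [map_add, H.BB_f hp hpf, H.BB_f hp hpf, ih _ (h3 0) a ha, ih _ (h3 1) b hb, add_zero]
  | zero => rw [map_zero]
  | add x y _ _ hx hy => rw [map_add, hx, hy, add_zero]

theorem HwM.BB_Bt (X Y : Tr) : BB e p X (evT f v Y) = Tr.Bt lam X Y := by
  induction X generalizing Y with
  | z => simp [BB_z, Tr.Bt]
  | nd c l r ihl ihr =>
    rw [BB_nd, evT_cst hp hpf, ← H.evT_eact, ← H.evT_eact, ihl, ihr, Tr.Bt]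
    push_cast
    rfl

end Pi

end

end Pool.Agent.GKO
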